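import Pool.Agent.Q181.SV.Dist

set_option autoImplicit false

namespace Pool.Agent.Q181.SV

open Set Metric

theorem Par.facts {β s l T₁ T₂ : ℝ} (h : Par β s l T₁ T₂) :
    0 < l ∧ 100 * l ≤ s ∧ 30 ≤ T₁ ∧ 90 ≤ T₂ ∧ 3 * (l * T₁) ≤ s ∧ l * T₂ ≤ s := by
  obtain ⟨hβ, hs, h1, h2, h3, h4, h5, h6, h7, h8⟩ := h
  have hl : 0 < l := by
    have : 0 < l * β := by rw [h2]; positivity
    exact (pos_iff_pos_of_mul_pos this).2 hβ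
  have hl1 : 100 * l ≤ s := by
    by_contra hc
    rw [not_le] at hc
    have : l * (100 * s) ≤ l * β := mul_le_mul_of_nonneg_left h1 hl.le
    nlinarith
  have hT1 : 30 ≤ T₁ := by
    by_contra hc
    rw [not_le] at hc
    have := mul_lt_mul_of_pos_left hc hs
    nlinarith
  have hT2 : 90 ≤ T₂ := by
    by_contra hc
    rw [not_le] at hc
    have := mul_lt_mul_of_pos_left hc hs
    nlinarith
  refine ⟨hl, hl1, hT1, hT2, ?_, ?_⟩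
  · have e1 := mul_le_mul_of_nonneg_left h6 hl.le
    have e2 : s * (3 * (l * T₁)) ≤ s * s := by nlinarith
    exact le_of_mul_le_mul_left e2 hs
  · have e1 := mul_le_mul_of_nonneg_left h8 hl.le
    have e2 : s * (l * T₂) ≤ s * s := by nlinarith
    exact le_of_mul_le_mul_left e2 hs

theorem t_adj1 : S_adj1 := by
  intro m f β s l T₁ T₂ hf hP
  obtain ⟨hl, hl1, hT1, hT2, hlT1, hlT2⟩ := hP.facts
  obtain ⟨hβ, hs, h1, h2, h3, h4, h5, h6, h7, h8⟩ := hP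
  have hS : 0 < s ^ 2 := by positivity
  have hΛ : 0 < l ^ 2 := by positivity
  have a1 : s ^ 2 * 30 ≤ s ^ 2 * T₁ := mul_le_mul_of_nonneg_left hT1 hS.le
  have a2 : l ^ 2 * 30 ≤ l ^ 2 * T₁ := mul_le_mul_of_nonneg_left hT1 hΛ.le
  have a3 : s ^ 2 * 90 ≤ s ^ 2 * T₂ := mul_le_mul_of_nonneg_left hT2 hS.le
  have a4 : l ^ 2 * 90 ≤ l ^ 2 * T₂ := mul_le_mul_of_nonneg_left hT2 hΛ.le
  have a5 : 10000 * s ^ 2 ≤ β ^ 2 := by nlinarith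
  have a6 : 10000 * l ^ 2 ≤ s ^ 2 := by nlinarith
  refine ⟨⟨?_, ?_, ?_, ?_, ?_, ?_⟩, ⟨?_, ?_, ?_⟩, ⟨?_, ?_, ?_⟩, ⟨?_, ?_, ?_⟩, ⟨?_, ?_, ?_⟩⟩ <;>
    refine dist_lt_of hf m _ _ _ _ _ _ _ _ _ _ _ hβ ?_ <;> nlinarith

theorem t_adj2 : S_adj2 := by
  intro m f β s l T₁ T₂ hf hP
  obtain ⟨hl, hl1, hT1, hT2, hlT1, hlT2⟩ := hP.facts
  obtain ⟨hβ, hs, h1, h2, h3, h4, h5, h6, h7, h8⟩ := hP
  have hS : 0 < s ^ 2 := by positivity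
  have hΛ : 0 < l ^ 2 := by positivity
  have a1 : s ^ 2 * 30 ≤ s ^ 2 * T₁ := mul_le_mul_of_nonneg_left hT1 hS.le
  have a2 : l ^ 2 * 30 ≤ l ^ 2 * T₁ := mul_le_mul_of_nonneg_left hT1 hΛ.le
  have a3 : s ^ 2 * 90 ≤ s ^ 2 * T₂ := mul_le_mul_of_nonneg_left hT2 hS.le
  have a4 : l ^ 2 * 90 ≤ l ^ 2 * T₂ := mul_le_mul_of_nonneg_left hT2 hΛ.le
  have big : ∀ d q : ℝ, β ≤ s * d → 0 ≤ q → β ^ 2 ≤ s ^ 2 * d ^ 2 + l ^ 2 * q := by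
    intro d q hd hq
    have e1 : β ^ 2 ≤ (s * d) ^ 2 := pow_le_pow_left₀ hβ.le hd 2
    have e2 : 0 ≤ l ^ 2 * q := by positivity
    nlinarith
  refine ⟨⟨?_, ?_, ?_, ?_⟩, ⟨?_, ?_, ?_, ?_⟩⟩ <;>
    refine le_dist_of hf m _ _ _ _ _ _ _ _ _ _ _ ?_
  · nlinarith
  · nlinarith
  · nlinarith
  · nlinarith
  · have e := big (2 + T₂ - (6 - 3 * T₁)) _ (by nlinarith)
      (by positivity : (0:ℝ) ≤ (8 - 7 * T₁ - (2 - T₂)) ^ 2 + (7 - (3 + 4 * T₂)) ^ 2 + (T₁ - T₂) ^ 2)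
    nlinarith
  · have e := big (3 * T₁ - (6 - 3 * T₁)) _ (by nlinarith)
      (by positivity : (0:ℝ) ≤ (8 - 7 * T₁ - 1) ^ 2 + (7 - 7 * T₁) ^ 2 + (T₁ - T₁) ^ 2)
    nlinarith
  · have e := big (2 + T₂ - (4 - T₂)) _ (by nlinarith)
      (by positivity : (0:ℝ) ≤ (5 - 4 * T₂ - (2 - T₂)) ^ 2 + (6 + T₂ - (3 + 4 * T₂)) ^ 2 + (T₂ - T₂) ^ 2)
    nlinarith
  · have e := big (3 * T₁ - (4 - T₂)) _ (by nlinarith)
      (by positivity : (0:ℝ) ≤ (5 - 4 * T₂ - 1) ^ 2 + (6 + T₂ - 7 * T₁) ^ 2 + (T₂ - T₁) ^ 2)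
    nlinarith

end Pool.Agent.Q181.SV
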