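import Pool.Agent.Q181.SV.Adj

set_option autoImplicit false

namespace Pool.Agent.Q181.SV

open Set Metric

theorem t_adj3 : S_adj3 := by
  intro m f β s l T₁ T₂ hf hP
  obtain ⟨hl, hl1, hT1, hT2, hlT1, hlT2⟩ := hP.facts
  obtain ⟨hβ, hs, h1, h2, h3, h4, h5, h6, h7, h8⟩ := hP
  have hS : 0 < s ^ 2 := by positivity
  have hΛ : 0 < l ^ 2 := by positivity
  have hlT1' : 0 ≤ l * T₁ := by positivity
  have hlT2' : 0 ≤ l * T₂ := by positivity
  have b1 : 9 * (l * T₁) ^ 2 ≤ s ^ 2 := by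
    have := pow_le_pow_left₀ (by positivity) hlT1 2
    nlinarith
  have b2 : (l * T₂) ^ 2 ≤ s ^ 2 := pow_le_pow_left₀ hlT2' hlT2 2
  have b3 : 10000 * l ^ 2 ≤ s ^ 2 := by nlinarith
  have b4 : l * (l * T₂) ≤ s ^ 2 := by nlinarith
  have a1 : s ^ 2 * 30 ≤ s ^ 2 * T₁ := mul_le_mul_of_nonneg_left hT1 hS.le
  have a3 : s ^ 2 * 90 ≤ s ^ 2 * T₂ := mul_le_mul_of_nonneg_left hT2 hS.le
  have big : ∀ d q : ℝ, ∀ e : ℝ, 0 ≤ e → e ≤ d → β ^ 2 ≤ s ^ 2 * e ^ 2 → 0 ≤ q →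
      β ^ 2 ≤ s ^ 2 * d ^ 2 + l ^ 2 * q := by
    intro d q e he hed hb hq
    have e1 : e ^ 2 ≤ d ^ 2 := pow_le_pow_left₀ he hed 2
    have e2 : 0 ≤ l ^ 2 * q := by positivity
    nlinarith
  have c1 : β ^ 2 ≤ s ^ 2 * (6 + 3 * T₁) ^ 2 := by nlinarith
  have c2 : β ^ 2 ≤ s ^ 2 * (8 + T₂) ^ 2 := by nlinarith
  have c3 : β ^ 2 ≤ s ^ 2 * (3 * T₁ + 12) ^ 2 := by nlinarith
  have c4 : β ^ 2 ≤ s ^ 2 * (T₂ + 14) ^ 2 := by nlinarith
  refine ⟨?_, ?_, ?_⟩
  · intro u hu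
    constructor
    · apply le_dist_of hf
      have e := big (3 * u - (6 - 3 * T₁)) ((8 - 7 * T₁ - 4 * u) ^ 2 + (7 - 4 * u) ^ 2 + (T₁ - 0) ^ 2)
        (6 + 3 * T₁) (by linarith) (by linarith) c1 (by positivity)
      nlinarith
    · apply le_dist_of hf
      have e := big (3 * u - (4 - T₂)) ((5 - 4 * T₂ - 4 * u) ^ 2 + (6 + T₂ - 4 * u) ^ 2 + (T₂ - 0) ^ 2)
        (8 + T₂) (by linarith) (by linarith) c2 (by positivity)
      nlinarith
  · intro u hu
    constructor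
    · apply le_dist_of hf
      have e := big (2 + T₂ - 3 * u) ((2 - T₂ - 4 * u) ^ 2 + (3 + 4 * T₂ - 4 * u) ^ 2 + (T₂ - 0) ^ 2)
        (T₂ + 14) (by linarith) (by linarith) c4 (by positivity)
      exact e
    · apply le_dist_of hf
      have e := big (3 * T₁ - 3 * u) ((1 - 4 * u) ^ 2 + (7 * T₁ - 4 * u) ^ 2 + (T₁ - 0) ^ 2)
        (3 * T₁ + 12) (by linarith) (by linarith) c3 (by positivity)
      exact e
  · have k1 : (3 * s * T₁) ^ 2 ≤ β ^ 2 := pow_le_pow_left₀ (by positivity) h6 2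
    have k2 : (s * T₂) ^ 2 ≤ β ^ 2 := pow_le_pow_left₀ (by positivity) h8 2
    have k3 : 10000 * s ^ 2 ≤ β ^ 2 := by nlinarith
    have hlT12 : 0 ≤ l ^ 2 * T₁ := by positivity
    have hlT22 : 0 ≤ l ^ 2 * T₂ := by positivity
    refine ⟨?_, ?_, ?_, ?_⟩ <;>
      rw [← L_zero m f s l] <;>
      rw [show L (L m f s l 0 0 0 0) f s l = L m f s l by rw [L_zero]] <;>
      refine dist_lt_of hf m _ _ _ _ _ _ _ _ _ _ _ (by positivity) ?_ <;> nlinarith

theorem sqrt_facts {β s : ℝ} (hβ : 0 < β) (hs : 0 < s) (h1 : 100 * s ≤ β) :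
    3 ≤ Real.sqrt (9 + 32 * (s / β) ^ 2) ∧ Real.sqrt (9 + 32 * (s / β) ^ 2) ≤ 31 / 10 := by
  have hκ0 : 0 < s / β := by positivity
  have hκ1 : s / β ≤ 1 / 100 := by rw [div_le_div_iff₀ hβ (by norm_num)]; linarith
  constructor
  · apply Real.le_sqrt_of_sq_le
    nlinarith [sq_nonneg (s / β)]
  · refine Real.sqrt_le_iff.2 ⟨by norm_num, ?_⟩
    nlinarith

theorem near_aux {f : Fin 4 → E 4} (hf : Orthonormal ℝ f) (m : E 4) {s l : ℝ} (hs : 0 < s)
    (hl : 0 < l) (x y z h y' z' a b c : ℝ) (ha : |y - y'| ≤ a) (hb : |z - z'| ≤ b) (hc : |h| ≤ c)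
    (H : l * (a + b + c) ≤ 20 * s) :
    dist (L m f s l x y z h) (L m f s l x y' z' 0) ≤ 20 * s := by
  apply le_of_sq_le_sq _ (by positivity)
  rw [dist_L hf]
  have h1 : (y - y') ^ 2 ≤ a ^ 2 := by rw [← sq_abs]; exact pow_le_pow_left₀ (abs_nonneg _) ha 2
  have h2 : (z - z') ^ 2 ≤ b ^ 2 := by rw [← sq_abs]; exact pow_le_pow_left₀ (abs_nonneg _) hb 2
  have h3 : h ^ 2 ≤ c ^ 2 := by rw [← sq_abs]; exact pow_le_pow_left₀ (abs_nonneg _) hc 2
  have ha0 := (abs_nonneg _).trans ha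
  have hb0 := (abs_nonneg _).trans hb
  have hc0 := (abs_nonneg _).trans hc
  have h4 : (l * (a + b + c)) ^ 2 ≤ (20 * s) ^ 2 := pow_le_pow_left₀ (by positivity) H 2
  have h5 : (y - y') ^ 2 + (z - z') ^ 2 + h ^ 2 ≤ (a + b + c) ^ 2 := by
    nlinarith [mul_nonneg ha0 hb0, mul_nonneg ha0 hc0, mul_nonneg hb0 hc0]
  have h6 : l ^ 2 * ((y - y') ^ 2 + (z - z') ^ 2 + h ^ 2) ≤ l ^ 2 * (a + b + c) ^ 2 :=
    mul_le_mul_of_nonneg_left h5 (by positivity)
  nlinarith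

theorem t_near : S_near := by
  intro m e f β s l T₁ T₂ hf hP hfe p hp
  obtain ⟨hl, hl1, hT1, hT2, hlT1, hlT2⟩ := hP.facts
  obtain ⟨hβ, hs, h1, h2, h3, h4, h5, h6, h7, h8⟩ := hP
  obtain ⟨hc1, hc2⟩ := sqrt_facts hβ hs h1
  set c : ℝ := Real.sqrt (9 + 32 * (s / β) ^ 2) with hc
  have hlκ : l = s * (s / β) := by
    field_simp
    linarith
  have hL : ∀ u : ℝ, L m f s l (3 * u) (4 * u) (4 * u) 0 = m + (s * c * u) • e := by
    intro u
    have e1 : (s * c * u) • e = (s * u) • (c • e) := by rw [smul_smul]; congr 1; ring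
    rw [e1, hfe]
    simp only [L, hlκ]
    module
  have key : ∀ u : ℝ, s * |u| ≤ 4 / 5 * β → ∀ q : E 4,
      dist q (L m f s l (3 * u) (4 * u) (4 * u) 0) ≤ 20 * s →
      ∃ t : ℝ, |t| < 3 * β ∧ dist q (m + t • e) ≤ 20 * s := by
    intro u hu q hq
    refine ⟨s * c * u, ?_, by rw [← hL]; exact hq⟩
    rw [abs_mul, abs_of_pos (by positivity : 0 < s * c)]
    have e1 : s * c * |u| = c * (s * |u|) := by ring
    rw [e1]
    have e2 : c * (s * |u|) ≤ 31 / 10 * (4 / 5 * β) :=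
      mul_le_mul hc2 hu (by positivity) (by norm_num)
    linarith
  have hsT1 : 0 < s * T₁ := by positivity
  have hlT2n : 0 < l * T₂ := by positivity
  have hlT1n : 0 < l * T₁ := by positivity
  rcases hp with rfl | rfl | rfl | rfl | rfl | rfl | rfl | rfl
  · refine key 0 (by rw [abs_zero]; nlinarith) _ ?_
    have := near_aux hf m hs hl 0 (-1) 0 0 0 0 1 0 0 (by norm_num) (by norm_num) (by norm_num)
      (by nlinarith)
    simpa using this
  · refine key 0 (by rw [abs_zero]; nlinarith) _ ?_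
    have := near_aux hf m hs hl 0 1 0 0 0 0 1 0 0 (by norm_num) (by norm_num) (by norm_num)
      (by nlinarith)
    simpa using this
  · refine key 2 (by rw [abs_of_pos (by norm_num)]; nlinarith) _ ?_
    have := near_aux hf m hs hl 6 8 7 0 8 8 0 1 0 (by norm_num) (by norm_num) (by norm_num)
      (by nlinarith)
    norm_num at this ⊢
    exact this
  · refine key 2 (by rw [abs_of_pos (by norm_num)]; nlinarith) _ ?_
    have := near_aux hf m hs hl 6 8 9 0 8 8 0 1 0 (by norm_num) (by norm_num) (by norm_num)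
      (by nlinarith)
    norm_num at this ⊢
    exact this
  · refine key (2 - T₁) ?_ _ ?_
    · rw [abs_of_nonpos (by linarith)]
      nlinarith
    · have e1 : 3 * (2 - T₁) = 6 - 3 * T₁ := by ring
      rw [e1]
      refine near_aux hf m hs hl _ _ _ _ _ _ (3 * T₁) (4 * T₁ + 1) T₁ ?_ ?_ ?_ (by nlinarith)
      · rw [abs_le]; constructor <;> linarith
      · rw [abs_le]; constructor <;> linarith
      · rw [abs_of_pos (by linarith)]
  · refine key ((4 - T₂) / 3) ?_ _ ?_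
    · rw [abs_of_nonpos (by linarith)]
      nlinarith
    · have e1 : 3 * ((4 - T₂) / 3) = 4 - T₂ := by ring
      rw [e1]
      refine near_aux hf m hs hl _ _ _ _ _ _ (3 * T₂) (3 * T₂) T₂ ?_ ?_ ?_ (by nlinarith)
      · rw [abs_le]; constructor <;> linarith
      · rw [abs_le]; constructor <;> linarith
      · rw [abs_of_pos (by linarith)]
  · refine key ((2 + T₂) / 3) ?_ _ ?_
    · rw [abs_of_nonneg (by linarith)]
      nlinarith
    · have e1 : 3 * ((2 + T₂) / 3) = 2 + T₂ := by ring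
      rw [e1]
      refine near_aux hf m hs hl _ _ _ _ _ _ (3 * T₂) (3 * T₂) T₂ ?_ ?_ ?_ (by nlinarith)
      · rw [abs_le]; constructor <;> linarith
      · rw [abs_le]; constructor <;> linarith
      · rw [abs_of_pos (by linarith)]
  · refine key T₁ ?_ _ ?_
    · rw [abs_of_nonneg (by linarith)]
      nlinarith
    · refine near_aux hf m hs hl _ _ _ _ _ _ (4 * T₁) (4 * T₁) T₁ ?_ ?_ ?_ (by nlinarith)
      · rw [abs_le]; constructor <;> linarith
      · rw [abs_le]; constructor <;> linarith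
      · rw [abs_of_pos (by linarith)]

end Pool.Agent.Q181.SV
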