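import Pool.Agent.Q181.SV.Stm

set_option autoImplicit false

namespace Pool.Agent.Q181.SV

open Set Metric

/-- the core: every compact set which is a straight segment near one of its points and lies in a
hyperplane has samples with a wrong shadow -/
theorem core (hparam : S_param) (hframe : S_frame) (havoid : S_avoid) (hfacet : S_facet)
    (hnear : S_near) (hnet : S_net) (htop : S_top)
    (M : Set (E 4)) (hM : IsCompact M) (m e n : E 4) (R : ℝ) (he : ‖e‖ = 1) (hn : ‖n‖ = 1)
    (hen : inner ℝ e n = 0) (hpl : ∀ p ∈ M, inner ℝ n (p - m) = 0)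
    (hline : ∀ p ∈ M, dist p m < R → ∃ t : ℝ, p = m + t • e)
    (hseg : ∀ t : ℝ, |t| < R → m + t • e ∈ M) (β : ℝ) (hβ : 0 < β) (hβR : 3 * β ≤ R)
    (δ : ℝ) (hδ : 0 < δ) :
    ∃ S : Set (E 4), S.Finite ∧ S.Nonempty ∧ hausdorffDist S M < δ ∧
      ¬ Nonempty (ContinuousMap.HomotopyEquiv (shadow β S) Circle) := by
  set s : ℝ := min (β / 100) (δ / 100) with hs
  have hs0 : 0 < s := lt_min (by positivity) (by positivity)
  have hs1 : 100 * s ≤ β := by
    have := min_le_left (β / 100) (δ / 100)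
    linarith
  have hs2 : 100 * s ≤ δ := by
    have := min_le_right (β / 100) (δ / 100)
    linarith
  set l : ℝ := s ^ 2 / β with hl
  have hlb : l * β = s ^ 2 := by rw [hl]; field_simp
  obtain ⟨T₁, T₂, hP⟩ := hparam β s l hβ hs0 hs1 hlb
  obtain ⟨f, hf, hf3, hfe⟩ := hframe e n he hn hen (s / β)
  set c : ℝ := Real.sqrt (9 + 32 * (s / β) ^ 2) with hc
  have hκ0 : 0 < s / β := by positivity
  have hκ1 : s / β ≤ 1 / 100 := by rw [div_le_div_iff₀ hβ (by norm_num)]; linarith
  have hc0 : 0 < c := Real.sqrt_pos.2 (by positivity)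
  have hc1 : c ≤ 31 / 10 := by
    rw [hc]
    refine Real.sqrt_le_iff.2 ⟨by norm_num, ?_⟩
    nlinarith
  have hlκ : l = s * (s / β) := by rw [hl]; ring
  -- points of the line in the frame
  have hL : ∀ u : ℝ, L m f s l (3 * u) (4 * u) (4 * u) 0 = m + (s * c * u) • e := by
    intro u
    have h1 : (s * c * u) • e = (s * u) • (c • e) := by rw [smul_smul]; congr 1; ring
    rw [h1, hfe]
    simp only [L, hlκ]
    module
  set g : ℝ := 4 * s * c with hg
  have hg0 : 0 < g := by positivity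
  have hgs : g ≤ 12.4 * s := by rw [hg]; nlinarith
  obtain ⟨F, hFf, hFM, hFn, hFg, hFd⟩ := hnet M hM m e R g (δ / 4) he hg0 (by linarith)
    (by positivity) hseg
  have hF1 : ∀ p ∈ F, inner ℝ (f 3) (p - m) = 0 := by
    intro p hp
    rw [hf3]
    exact hpl p (hFM hp)
  have hF2 : ∀ p ∈ F, dist p m < 3 * β → ∃ u : ℝ, (u ≤ -4 ∨ 4 ≤ u) ∧
      p = L m f s l (3 * u) (4 * u) (4 * u) 0 := by
    intro p hp hd
    obtain ⟨t, ht⟩ := hline p (hFM hp) (by linarith)
    have h1 : ¬ |t| < g := by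
      intro h
      exact hFg t h (ht ▸ hp)
    rw [not_lt] at h1
    refine ⟨t / (s * c), ?_, ?_⟩
    · rcases le_abs.1 h1 with h | h
      · right
        rw [le_div_iff₀ (by positivity)]
        rw [hg] at h
        linarith
      · left
        rw [div_le_iff₀ (by positivity)]
        rw [hg] at h
        linarith
    · rw [hL, ht]
      congr 2
      field_simp
  refine ⟨F ∪ Sp m f s l T₁ T₂, ?_, ?_, ?_, ?_⟩
  · refine hFf.union ?_
    unfold Sp
    exact Set.toFinite _
  · exact hFn.mono subset_union_left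
  · have hnr := hnear m e f β s l T₁ T₂ hf hP hfe
    have h1 : hausdorffDist (F ∪ Sp m f s l T₁ T₂) M ≤ 3 * δ / 4 := by
      refine hausdorffDist_le_of_mem_dist (by positivity) ?_ ?_
      · rintro p (hp | hp)
        · exact ⟨p, hFM hp, by rw [dist_self]; positivity⟩
        · obtain ⟨t, ht, hd⟩ := hnr p hp
          exact ⟨m + t • e, hseg t (by linarith), by linarith⟩
      · intro x hx
        obtain ⟨p, hp, hd⟩ := hFd x hx
        refine ⟨p, Or.inl hp, ?_⟩
        linarith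
    linarith
  · obtain ⟨C, hC1, hC2, hC3, hC4⟩ := hfacet m f β s l T₁ T₂ hf hP F
    exact htop _ C _ (havoid m f β s l T₁ T₂ hf hP F hF1 hF2) hC1 hC2 hC3 hC4

/-- the closed curve -/
theorem result' (hparam : S_param) (hframe : S_frame) (havoid : S_avoid) (hfacet : S_facet)
    (hnear : S_near) (hnet : S_net) (htop : S_top) (hcurve : S_curve) (htrans : S_trans)
    (N : ℕ) (hN : 4 ≤ N) :
    ∃ M : Set (E N), IsClosedCurve M ∧ ∃ β₀ : ℝ, 0 < β₀ ∧ ∀ β : ℝ, 0 < β → β < β₀ →
      ∀ δ : ℝ, 0 < δ → ∃ S : Set (E N), S.Finite ∧ S.Nonempty ∧ hausdorffDist S M < δ ∧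
        ¬ Nonempty (ContinuousMap.HomotopyEquiv (shadow β S) Circle) := by
  obtain ⟨M, hMc, m, e, n, R, he, hn, hen, hR, hpl, hline, hseg⟩ := hcurve
  have hM : IsCompact M := by
    obtain ⟨γ, hγ, hper, -, -, rfl⟩ := hMc
    have h1 : range γ = γ '' Icc 0 1 := by
      ext x
      constructor
      · rintro ⟨t, rfl⟩
        have hp : Function.Periodic γ 1 := hper
        obtain ⟨y, hy, hyt⟩ := hp.exists_mem_Ico₀ one_pos t
        exact ⟨y, Ico_subset_Icc_self hy, hyt.symm⟩
      · rintro ⟨t, -, rfl⟩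
        exact ⟨t, rfl⟩
    rw [h1]
    exact isCompact_Icc.image hγ.continuous
  obtain ⟨φ, hφ, hφM, hφS⟩ := htrans N hN
  refine ⟨φ '' M, hφM M hMc, R / 3, by positivity, ?_⟩
  intro β hβ hβR δ hδ
  obtain ⟨S, hS1, hS2, hS3, hS4⟩ := core hparam hframe havoid hfacet hnear hnet htop M hM m e n R
    he hn hen hpl hline hseg β hβ (by linarith) δ hδ
  refine ⟨φ '' S, hS1.image φ, hS2.image φ, ?_, ?_⟩
  · rw [hausdorffDist_image hφ]
    exact hS3
  · rintro ⟨h⟩
    obtain ⟨g⟩ := hφS β S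
    exact hS4 ⟨(g.symm.toHomotopyEquiv).trans h⟩

end Pool.Agent.Q181.SV
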