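import Pool.Agent.Q181.SV.Coord
import Pool.Agent.Q181.SV.Adj

set_option autoImplicit false

namespace Pool.Agent.Q181.SV

open Set Metric

theorem t_avoid : S_adj2 → S_adj3 → S_avoid := by
  intro hA2 hA3 m f β s l T₁ T₂ hf hP F hF1 hF2
  rintro ⟨σ, hne, hσ, hd, hx⟩
  obtain ⟨hl, hl1, hT1, hT2, hlT1, hlT2⟩ := hP.facts
  have hs : 0 < s := hP.2.1
  obtain ⟨⟨d1, d2, d3, d4⟩, d5, d6, d7, d8⟩ := hA2 m f β s l T₁ T₂ hf hP
  obtain ⟨k1, k2, k3, k4, k5, k6⟩ := hA3 m f β s l T₁ T₂ hf hP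
  set v₁ := L m f s l 0 (-1) 0 0 with hv₁
  set v₂ := L m f s l 0 1 0 0 with hv₂
  set u₁ := L m f s l 6 8 7 0 with hu₁
  set u₂ := L m f s l 6 8 9 0 with hu₂
  set z₁ := L m f s l (6 - 3 * T₁) (8 - 7 * T₁) 7 T₁ with hz₁
  set z₂ := L m f s l (4 - T₂) (5 - 4 * T₂) (6 + T₂) T₂ with hz₂
  set w₁ := L m f s l (2 + T₂) (2 - T₂) (3 + 4 * T₂) T₂ with hw₁
  set w₂ := L m f s l (3 * T₁) 1 (7 * T₁) T₁ with hw₂
  have hdist : ∀ p ∈ σ, ∀ q ∈ σ, dist p q < β := fun p hp q hq =>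
    lt_of_le_of_lt (dist_le_diam_of_mem σ.finite_toSet.isBounded hp hq) hd
  have hcase : ∀ p ∈ σ, (p ∈ F ∨ p = v₁ ∨ p = v₂ ∨ p = u₁ ∨ p = u₂) ∨
      (p = z₁ ∨ p = z₂ ∨ p = w₁ ∨ p = w₂) := by
    intro p hp
    have := hσ (Finset.mem_coe.2 hp)
    rcases this with h | h
    · exact Or.inl (Or.inl h)
    · rcases h with h | h | h | h | h | h | h | h
      · exact Or.inl (Or.inr (Or.inl h))
      · exact Or.inl (Or.inr (Or.inr (Or.inl h)))
      · exact Or.inl (Or.inr (Or.inr (Or.inr (Or.inl h))))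
      · exact Or.inl (Or.inr (Or.inr (Or.inr (Or.inr h))))
      · exact Or.inr (Or.inl h)
      · exact Or.inr (Or.inr (Or.inl h))
      · exact Or.inr (Or.inr (Or.inr (Or.inl h)))
      · exact Or.inr (Or.inr (Or.inr (Or.inr h)))
  -- the values of the functionals at the centre
  have hcen : ∀ a b c d e : ℝ, G m f s l a b c d e (cen m f s l) =
      a * 3 + b * (17 / 5) + c * (23 / 5) + d * (1 / 5) + e := fun a b c d e =>
    G_L hf m hs.ne' hl.ne' a b c d e _ _ _ _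
  have contra : ∀ a b c d e r : ℝ, (∀ p ∈ σ, G m f s l a b c d e p ≤ r) →
      r < a * 3 + b * (17 / 5) + c * (23 / 5) + d * (1 / 5) + e → False := by
    intro a b c d e r h hr
    have h1 := hull_G (σ := (σ : Set (E 4))) (fun p hp => h p (Finset.mem_coe.1 hp)) hx
    rw [hcen] at h1
    linarith
  -- points of `F` near a far special point
  have hFz : ∀ q ∈ σ, dist q m < 2 * β → ∀ p ∈ σ, p ∈ F → ∃ u : ℝ, (u ≤ -4 ∨ 4 ≤ u) ∧
      p = L m f s l (3 * u) (4 * u) (4 * u) 0 := by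
    intro q hq hqm p hp hpF
    apply hF2 p hpF
    have h1 := hdist p hp q hq
    have h2 := dist_triangle p q m
    linarith
  by_cases c1 : z₁ ∈ σ
  · have n1 : u₂ ∉ σ := fun h => absurd (hdist _ c1 _ h) (not_lt.2 d1)
    have n2 : w₁ ∉ σ := fun h => absurd (hdist _ c1 _ h) (not_lt.2 d5)
    have n3 : w₂ ∉ σ := fun h => absurd (hdist _ c1 _ h) (not_lt.2 d6)
    have hax : ∀ p ∈ σ, p ∈ F → ∃ u : ℝ, u ≤ -4 ∧ p = L m f s l (3 * u) (4 * u) (4 * u) 0 := by
      intro p hp hpF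
      obtain ⟨u, hu, rfl⟩ := hFz _ c1 k3 p hp hpF
      rcases hu with hu | hu
      · exact ⟨u, hu, rfl⟩
      · exact absurd (hdist _ c1 _ hp) (not_lt.2 (k1 u hu).1)
    by_cases c2 : z₂ ∈ σ
    · have n4 : u₁ ∉ σ := fun h => absurd (hdist _ c2 _ h) (not_lt.2 d2)
      refine contra 1 0 0 0 0 0 ?_ (by norm_num)
      intro p hp
      rcases hcase p hp with (h | rfl | rfl | rfl | rfl) | (rfl | rfl | rfl | rfl)
      · obtain ⟨u, hu, rfl⟩ := hax p hp h
        rw [G_L hf m hs.ne' hl.ne']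
        linarith
      · rw [hv₁, G_L hf m hs.ne' hl.ne']; norm_num
      · rw [hv₂, G_L hf m hs.ne' hl.ne']; norm_num
      · exact absurd hp n4
      · exact absurd hp n1
      · rw [hz₁, G_L hf m hs.ne' hl.ne']; linarith
      · rw [hz₂, G_L hf m hs.ne' hl.ne']; linarith
      · exact absurd hp n2
      · exact absurd hp n3
    · refine contra (-7) 0 6 (-21) 0 0 ?_ (by norm_num)
      intro p hp
      rcases hcase p hp with (h | rfl | rfl | rfl | rfl) | (rfl | rfl | rfl | rfl)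
      · obtain ⟨u, hu, rfl⟩ := hax p hp h
        rw [G_L hf m hs.ne' hl.ne']
        linarith
      · rw [hv₁, G_L hf m hs.ne' hl.ne']; norm_num
      · rw [hv₂, G_L hf m hs.ne' hl.ne']; norm_num
      · rw [hu₁, G_L hf m hs.ne' hl.ne']; norm_num
      · exact absurd hp n1
      · rw [hz₁, G_L hf m hs.ne' hl.ne']; linarith
      · exact absurd hp c2
      · exact absurd hp n2
      · exact absurd hp n3
  by_cases c2 : z₂ ∈ σ
  · have n4 : u₁ ∉ σ := fun h => absurd (hdist _ c2 _ h) (not_lt.2 d2)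
    have n2 : w₁ ∉ σ := fun h => absurd (hdist _ c2 _ h) (not_lt.2 d7)
    have n3 : w₂ ∉ σ := fun h => absurd (hdist _ c2 _ h) (not_lt.2 d8)
    have hax : ∀ p ∈ σ, p ∈ F → ∃ u : ℝ, u ≤ -4 ∧ p = L m f s l (3 * u) (4 * u) (4 * u) 0 := by
      intro p hp hpF
      obtain ⟨u, hu, rfl⟩ := hFz _ c2 k4 p hp hpF
      rcases hu with hu | hu
      · exact ⟨u, hu, rfl⟩
      · exact absurd (hdist _ c2 _ hp) (not_lt.2 (k1 u hu).2)
    refine contra 9 0 (-6) 15 0 0 ?_ (by norm_num)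
    intro p hp
    rcases hcase p hp with (h | rfl | rfl | rfl | rfl) | (rfl | rfl | rfl | rfl)
    · obtain ⟨u, hu, rfl⟩ := hax p hp h
      rw [G_L hf m hs.ne' hl.ne']
      linarith
    · rw [hv₁, G_L hf m hs.ne' hl.ne']; norm_num
    · rw [hv₂, G_L hf m hs.ne' hl.ne']; norm_num
    · exact absurd hp n4
    · rw [hu₂, G_L hf m hs.ne' hl.ne']; norm_num
    · exact absurd hp c1
    · rw [hz₂, G_L hf m hs.ne' hl.ne']; linarith
    · exact absurd hp n2
    · exact absurd hp n3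
  by_cases c3 : w₁ ∈ σ
  · have n1 : v₂ ∉ σ := fun h => absurd (hdist _ c3 _ h) (not_lt.2 d3)
    have hax : ∀ p ∈ σ, p ∈ F → ∃ u : ℝ, 4 ≤ u ∧ p = L m f s l (3 * u) (4 * u) (4 * u) 0 := by
      intro p hp hpF
      obtain ⟨u, hu, rfl⟩ := hFz _ c3 k5 p hp hpF
      rcases hu with hu | hu
      · exact absurd (hdist _ c3 _ hp) (not_lt.2 (k2 u hu).1)
      · exact ⟨u, hu, rfl⟩
    by_cases c4 : w₂ ∈ σ
    · have n2 : v₁ ∉ σ := fun h => absurd (hdist _ c4 _ h) (not_lt.2 d4)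
      refine contra (-1) 0 0 0 0 (-6) ?_ (by norm_num)
      intro p hp
      rcases hcase p hp with (h | rfl | rfl | rfl | rfl) | (rfl | rfl | rfl | rfl)
      · obtain ⟨u, hu, rfl⟩ := hax p hp h
        rw [G_L hf m hs.ne' hl.ne']
        linarith
      · exact absurd hp n2
      · exact absurd hp n1
      · rw [hu₁, G_L hf m hs.ne' hl.ne']; norm_num
      · rw [hu₂, G_L hf m hs.ne' hl.ne']; norm_num
      · exact absurd hp c1
      · exact absurd hp c2
      · rw [hw₁, G_L hf m hs.ne' hl.ne']; linarith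
      · rw [hw₂, G_L hf m hs.ne' hl.ne']; linarith
    · refine contra (-9) 6 0 15 6 0 ?_ (by norm_num)
      intro p hp
      rcases hcase p hp with (h | rfl | rfl | rfl | rfl) | (rfl | rfl | rfl | rfl)
      · obtain ⟨u, hu, rfl⟩ := hax p hp h
        rw [G_L hf m hs.ne' hl.ne']
        linarith
      · rw [hv₁, G_L hf m hs.ne' hl.ne']; norm_num
      · exact absurd hp n1
      · rw [hu₁, G_L hf m hs.ne' hl.ne']; norm_num
      · rw [hu₂, G_L hf m hs.ne' hl.ne']; norm_num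
      · exact absurd hp c1
      · exact absurd hp c2
      · rw [hw₁, G_L hf m hs.ne' hl.ne']; linarith
      · exact absurd hp c4
  by_cases c4 : w₂ ∈ σ
  · have n2 : v₁ ∉ σ := fun h => absurd (hdist _ c4 _ h) (not_lt.2 d4)
    have hax : ∀ p ∈ σ, p ∈ F → ∃ u : ℝ, 4 ≤ u ∧ p = L m f s l (3 * u) (4 * u) (4 * u) 0 := by
      intro p hp hpF
      obtain ⟨u, hu, rfl⟩ := hFz _ c4 k6 p hp hpF
      rcases hu with hu | hu
      · exact absurd (hdist _ c4 _ hp) (not_lt.2 (k2 u hu).2)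
      · exact ⟨u, hu, rfl⟩
    refine contra 7 (-6) 0 (-21) 6 0 ?_ (by norm_num)
    intro p hp
    rcases hcase p hp with (h | rfl | rfl | rfl | rfl) | (rfl | rfl | rfl | rfl)
    · obtain ⟨u, hu, rfl⟩ := hax p hp h
      rw [G_L hf m hs.ne' hl.ne']
      linarith
    · exact absurd hp n2
    · rw [hv₂, G_L hf m hs.ne' hl.ne']; norm_num
    · rw [hu₁, G_L hf m hs.ne' hl.ne']; norm_num
    · rw [hu₂, G_L hf m hs.ne' hl.ne']; norm_num
    · exact absurd hp c1
    · exact absurd hp c2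
    · exact absurd hp c3
    · rw [hw₂, G_L hf m hs.ne' hl.ne']; linarith
  -- no far special point
  refine contra 0 0 0 1 0 0 ?_ (by norm_num)
  intro p hp
  rcases hcase p hp with (h | rfl | rfl | rfl | rfl) | (rfl | rfl | rfl | rfl)
  · have h1 := hF1 p h
    unfold G
    rw [h1]
    simp
  · rw [hv₁, G_L hf m hs.ne' hl.ne']; norm_num
  · rw [hv₂, G_L hf m hs.ne' hl.ne']; norm_num
  · rw [hu₁, G_L hf m hs.ne' hl.ne']; norm_num
  · rw [hu₂, G_L hf m hs.ne' hl.ne']; norm_num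
  · exact absurd hp c1
  · exact absurd hp c2
  · exact absurd hp c3
  · exact absurd hp c4

end Pool.Agent.Q181.SV
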