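import Pool.Agent.Q181.SV.Dist

set_option autoImplicit false

namespace Pool.Agent.Q181.SV

open Set Metric

/-- normalised affine functional -/
noncomputable def G (m : E 4) (f : Fin 4 → E 4) (s l a b c d e : ℝ) (p : E 4) : ℝ :=
  a * (inner ℝ (f 0) (p - m) / s) + b * (inner ℝ (f 1) (p - m) / l) +
    c * (inner ℝ (f 2) (p - m) / l) + d * (inner ℝ (f 3) (p - m) / l) + e

theorem G_L {f : Fin 4 → E 4} (hf : Orthonormal ℝ f) (m : E 4) {s l : ℝ} (hs : s ≠ 0) (hl : l ≠ 0)
    (a b c d e x y z h : ℝ) :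
    G m f s l a b c d e (L m f s l x y z h) = a * x + b * y + c * z + d * h + e := by
  have hin : ∀ i j, inner ℝ (f i) (f j) = if i = j then (1 : ℝ) else 0 :=
    orthonormal_iff_ite.1 hf
  unfold G L
  rw [add_sub_cancel_left]
  simp only [inner_add_right, real_inner_smul_right, hin]
  simp
  field_simp

theorem G_affine (m : E 4) (f : Fin 4 → E 4) (s l a b c d e : ℝ) (p q : E 4) (t u : ℝ)
    (htu : t + u = 1) : G m f s l a b c d e (t • p + u • q) =
      t * G m f s l a b c d e p + u * G m f s l a b c d e q := by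
  have h : t • p + u • q - m = t • (p - m) + u • (q - m) := by
    have : m = (t + u) • m := by rw [htu, one_smul]
    conv_lhs => rw [this]
    module
  unfold G
  rw [h]
  simp only [inner_add_right, real_inner_smul_right]
  linear_combination (-e) * htu

theorem convex_G (m : E 4) (f : Fin 4 → E 4) (s l a b c d e r : ℝ) :
    Convex ℝ {p | G m f s l a b c d e p ≤ r} := by
  intro p hp q hq t u ht hu htu
  simp only [mem_setOf_eq] at hp hq ⊢
  rw [G_affine _ _ _ _ _ _ _ _ _ _ _ _ _ htu]
  have h1 := mul_le_mul_of_nonneg_left hp ht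
  have h2 := mul_le_mul_of_nonneg_left hq hu
  have h3 : t * r + u * r = r := by rw [← add_mul, htu, one_mul]
  linarith

theorem hull_G {m : E 4} {f : Fin 4 → E 4} {s l a b c d e r : ℝ} {σ : Set (E 4)}
    (h : ∀ p ∈ σ, G m f s l a b c d e p ≤ r) {x : E 4} (hx : x ∈ convexHull ℝ σ) :
    G m f s l a b c d e x ≤ r :=
  convexHull_min (fun p hp => h p hp) (convex_G m f s l a b c d e r) hx

theorem continuous_G (m : E 4) (f : Fin 4 → E 4) (s l a b c d e : ℝ) :
    Continuous (G m f s l a b c d e) := by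
  unfold G
  fun_prop

/-- every point has normalised coordinates -/
theorem exists_L {f : Fin 4 → E 4} (hf : Orthonormal ℝ f) (m : E 4) {s l : ℝ} (hs : s ≠ 0)
    (hl : l ≠ 0) (p : E 4) : ∃ x y z h : ℝ, p = L m f s l x y z h := by
  have hcard : Fintype.card (Fin 4) = Module.finrank ℝ (E 4) := by simp
  let b : OrthonormalBasis (Fin 4) ℝ (E 4) :=
    OrthonormalBasis.mk hf (by
      rw [top_le_iff]
      exact hf.linearIndependent.span_eq_top_of_card_eq_finrank' hcard)
  have hb : ∀ i, b i = f i := fun i => by simp [b]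
  have h1 := b.sum_repr (p - m)
  simp only [Fin.sum_univ_four, hb] at h1
  refine ⟨b.repr (p - m) 0 / s, b.repr (p - m) 1 / l, b.repr (p - m) 2 / l,
    b.repr (p - m) 3 / l, ?_⟩
  unfold L
  rw [mul_div_cancel₀ _ hs, mul_div_cancel₀ _ hl, mul_div_cancel₀ _ hl, mul_div_cancel₀ _ hl, h1]
  abel

end Pool.Agent.Q181.SV
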