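import Pool.Agent.Q181.SV.Stm

set_option autoImplicit false

namespace Pool.Agent.Q181.SV

open Set Metric

/-- the cutoff -/
noncomputable def chi (c : ℝ) : ℝ := Real.smoothTransition (4 * c - 2)

/-- the inverse radius as a function of the cosine -/
noncomputable def den (c : ℝ) : ℝ := chi c * c + (1 - chi c)

theorem chi_nonneg (c : ℝ) : 0 ≤ chi c := Real.smoothTransition.nonneg _

theorem chi_le_one (c : ℝ) : chi c ≤ 1 := Real.smoothTransition.le_one _

theorem chi_zero {c : ℝ} (h : c ≤ 1 / 2) : chi c = 0 :=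
  Real.smoothTransition.zero_of_nonpos (by linarith)

theorem chi_one {c : ℝ} (h : 3 / 4 ≤ c) : chi c = 1 :=
  Real.smoothTransition.one_of_one_le (by linarith)

theorem den_pos (c : ℝ) : 0 < den c := by
  unfold den
  rcases le_or_gt c (1 / 2) with h | h
  · rw [chi_zero h]; norm_num
  · have h1 := chi_nonneg c
    have h2 := chi_le_one c
    rcases eq_or_lt_of_le h2 with h3 | h3
    · rw [h3]; linarith
    · have : 0 ≤ chi c * c := mul_nonneg h1 (by linarith)
      linarith

theorem den_one {c : ℝ} (h : 3 / 4 ≤ c) : den c = c := by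
  unfold den
  rw [chi_one h]; ring

theorem contDiff_den : ContDiff ℝ (⊤ : ℕ∞) den := by
  unfold den chi
  have h : ContDiff ℝ (⊤ : ℕ∞) (fun c : ℝ => Real.smoothTransition (4 * c - 2)) :=
    Real.smoothTransition.contDiff.comp (by fun_prop)
  exact (h.mul contDiff_id).add (contDiff_const.sub h)

/-- the radius -/
noncomputable def rad (t : ℝ) : ℝ := (den (Real.cos (2 * Real.pi * t)))⁻¹

theorem rad_pos (t : ℝ) : 0 < rad t := inv_pos.2 (den_pos _)

theorem contDiff_rad : ContDiff ℝ (⊤ : ℕ∞) rad := by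
  unfold rad
  refine ContDiff.inv ?_ (fun t => (den_pos _).ne')
  exact contDiff_den.comp (by fun_prop)

/-- the curve -/
noncomputable def gam (t : ℝ) : E 4 :=
  WithLp.toLp 2 ![rad t * Real.cos (2 * Real.pi * t), rad t * Real.sin (2 * Real.pi * t), 0, 0]

theorem gam0 (t : ℝ) : gam t 0 = rad t * Real.cos (2 * Real.pi * t) := rfl
theorem gam1 (t : ℝ) : gam t 1 = rad t * Real.sin (2 * Real.pi * t) := rfl
theorem gam2 (t : ℝ) : gam t 2 = 0 := rfl
theorem gam3 (t : ℝ) : gam t 3 = 0 := rfl

theorem contDiff_gam : ContDiff ℝ (⊤ : ℕ∞) gam := by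
  rw [contDiff_euclidean]
  intro i
  fin_cases i
  · show ContDiff ℝ _ (fun t => rad t * Real.cos (2 * Real.pi * t))
    exact contDiff_rad.mul (by fun_prop)
  · show ContDiff ℝ _ (fun t => rad t * Real.sin (2 * Real.pi * t))
    exact contDiff_rad.mul (by fun_prop)
  · show ContDiff ℝ _ (fun _ => (0 : ℝ))
    exact contDiff_const
  · show ContDiff ℝ _ (fun _ => (0 : ℝ))
    exact contDiff_const

theorem cos_add_one (t : ℝ) : Real.cos (2 * Real.pi * (t + 1)) = Real.cos (2 * Real.pi * t) := by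
  rw [mul_add, mul_one, Real.cos_add_two_pi]

theorem sin_add_one (t : ℝ) : Real.sin (2 * Real.pi * (t + 1)) = Real.sin (2 * Real.pi * t) := by
  rw [mul_add, mul_one, Real.sin_add_two_pi]

theorem gam_add_one (t : ℝ) : gam (t + 1) = gam t := by
  unfold gam rad
  rw [cos_add_one, sin_add_one]

theorem deriv_gam_ne (t : ℝ) : deriv gam t ≠ 0 := by
  intro h
  have hd : HasDerivAt gam 0 t := by
    rw [← h]
    exact (contDiff_gam.differentiable (by simp) t).hasDerivAt
  have hp : ∀ i : Fin 4, HasDerivAt (fun t => gam t i) 0 t := by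
    intro i
    have h1 := ((EuclideanSpace.proj i : E 4 →L[ℝ] ℝ).hasFDerivAt (x := gam t)).comp_hasDerivAt t hd
    rw [map_zero] at h1
    exact h1
  have hr : HasDerivAt rad (deriv rad t) t :=
    (contDiff_rad.differentiable (by simp) t).hasDerivAt
  have hc : HasDerivAt (fun t => Real.cos (2 * Real.pi * t))
      (-Real.sin (2 * Real.pi * t) * (2 * Real.pi)) t := by
    have := ((hasDerivAt_id t).const_mul (2 * Real.pi)).cos
    simpa using this
  have hs : HasDerivAt (fun t => Real.sin (2 * Real.pi * t))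
      (Real.cos (2 * Real.pi * t) * (2 * Real.pi)) t := by
    have := ((hasDerivAt_id t).const_mul (2 * Real.pi)).sin
    simpa using this
  have h0 := (hp 0).unique (hr.mul hc)
  have h1 := (hp 1).unique (hr.mul hs)
  have h2 := Real.sin_sq_add_cos_sq (2 * Real.pi * t)
  have h3 : rad t * (2 * Real.pi) = 0 := by
    linear_combination (-(rad t) * (2 * Real.pi)) * h2 - Real.sin (2 * Real.pi * t) * h0 * (-1) -
      Real.cos (2 * Real.pi * t) * h1
  have := rad_pos t
  have := Real.pi_pos
  have : 0 < rad t * (2 * Real.pi) := by positivity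
  linarith

theorem gam_inj {s t : ℝ} (h : gam s = gam t) : ∃ k : ℤ, s = t + k := by
  have h0 : rad s * Real.cos (2 * Real.pi * s) = rad t * Real.cos (2 * Real.pi * t) := by
    rw [← gam0, ← gam0, h]
  have h1 : rad s * Real.sin (2 * Real.pi * s) = rad t * Real.sin (2 * Real.pi * t) := by
    rw [← gam1, ← gam1, h]
  have hs := Real.sin_sq_add_cos_sq (2 * Real.pi * s)
  have ht := Real.sin_sq_add_cos_sq (2 * Real.pi * t)
  have hsq : rad s ^ 2 = rad t ^ 2 := by
    calc rad s ^ 2 = (rad s * Real.cos (2 * Real.pi * s)) ^ 2 +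
          (rad s * Real.sin (2 * Real.pi * s)) ^ 2 := by
            linear_combination (-(rad s) ^ 2) * hs
      _ = (rad t * Real.cos (2 * Real.pi * t)) ^ 2 +
          (rad t * Real.sin (2 * Real.pi * t)) ^ 2 := by rw [h0, h1]
      _ = rad t ^ 2 := by linear_combination ((rad t) ^ 2) * ht
  have hr : rad s = rad t := by
    have := rad_pos s
    have := rad_pos t
    nlinarith
  rw [hr] at h0 h1
  have hc := mul_left_cancel₀ (rad_pos t).ne' h0
  have hsn := mul_left_cancel₀ (rad_pos t).ne' h1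
  have ha := Real.Angle.cos_sin_inj hc hsn
  obtain ⟨k, hk⟩ := Real.Angle.angle_eq_iff_two_pi_dvd_sub.1 ha
  refine ⟨k, ?_⟩
  have hpi := Real.pi_pos
  have : 2 * Real.pi * (s - t - k) = 0 := by linear_combination hk
  have := (mul_eq_zero.1 this).resolve_left (by positivity)
  linarith

theorem dist4 (p q : E 4) : dist p q ^ 2 =
    (p 0 - q 0) ^ 2 + (p 1 - q 1) ^ 2 + (p 2 - q 2) ^ 2 + (p 3 - q 3) ^ 2 := by
  rw [dist_eq_norm, EuclideanSpace.norm_sq_eq, Fin.sum_univ_four]
  simp only [Real.norm_eq_abs, sq_abs, PiLp.sub_apply]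

/-- the centre of the segment -/
noncomputable def m0 : E 4 := WithLp.toLp 2 ![1, 0, 0, 0]
/-- its direction -/
noncomputable def e0 : E 4 := WithLp.toLp 2 ![0, 1, 0, 0]
/-- a normal direction -/
noncomputable def n0 : E 4 := WithLp.toLp 2 ![0, 0, 0, 1]

theorem ext4 {p q : E 4} (h0 : p 0 = q 0) (h1 : p 1 = q 1) (h2 : p 2 = q 2) (h3 : p 3 = q 3) :
    p = q := by
  ext i
  fin_cases i
  · exact h0
  · exact h1
  · exact h2
  · exact h3

theorem t_curve : S_curve := by
  refine ⟨range gam, ⟨gam, contDiff_gam, gam_add_one, deriv_gam_ne, fun s t h => gam_inj h, rfl⟩,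
    m0, e0, n0, 1 / 10, ?_, ?_, ?_, by norm_num, ?_, ?_, ?_⟩
  · rw [← sq_eq_sq₀ (norm_nonneg _) (by norm_num), EuclideanSpace.norm_sq_eq, Fin.sum_univ_four]
    simp [e0]
  · rw [← sq_eq_sq₀ (norm_nonneg _) (by norm_num), EuclideanSpace.norm_sq_eq, Fin.sum_univ_four]
    simp [n0]
  · simp [e0, n0, PiLp.inner_apply, Fin.sum_univ_four]
  · rintro p ⟨t, rfl⟩
    simp [gam, m0, n0, PiLp.inner_apply, Fin.sum_univ_four]
  · rintro p ⟨t, rfl⟩ hd
    have hd2 : dist (gam t) m0 ^ 2 < 1 / 100 := by
      have := dist_nonneg (x := gam t) (y := m0)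
      nlinarith
    rw [dist4, gam0, gam1, gam2, gam3] at hd2
    have e1 : m0 0 = 1 := rfl
    have e2 : m0 1 = 0 := rfl
    have e3 : m0 2 = 0 := rfl
    have e4 : m0 3 = 0 := rfl
    rw [e1, e2, e3, e4] at hd2
    have hs := Real.sin_sq_add_cos_sq (2 * Real.pi * t)
    have hr := rad_pos t
    have hrd : rad t = (den (Real.cos (2 * Real.pi * t)))⁻¹ := rfl
    set c := Real.cos (2 * Real.pi * t) with hc
    set r := rad t with hr'
    set σ := Real.sin (2 * Real.pi * t) with hσ
    have hx : 9 / 10 < r * c := by nlinarith [sq_nonneg (r * σ), sq_nonneg (r * c - 1 + 1 / 10)]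
    have hc0 : 0 < c := by
      by_contra hcon
      have : r * c ≤ 0 := mul_nonpos_of_nonneg_of_nonpos hr.le (not_lt.1 hcon)
      linarith
    have hc1 : 3 / 4 ≤ c := by
      by_contra hcon
      have hcc : c ^ 2 < 9 / 16 := by nlinarith
      have hss : 7 / 16 < σ ^ 2 := by linarith
      have hy : (r * σ) ^ 2 < 1 / 100 := by nlinarith [sq_nonneg (r * c - 1)]
      have hx2 : 81 / 100 < (r * c) ^ 2 := by nlinarith
      have hr2 : 0 < r ^ 2 := by positivity
      have k1 : r ^ 2 * (7 / 16) < 1 / 100 := by nlinarith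
      have k2 : 81 / 100 < r ^ 2 * (9 / 16) := by nlinarith
      linarith
    have hrc : r * c = 1 := by
      rw [hrd, den_one hc1]
      exact inv_mul_cancel₀ hc0.ne'
    refine ⟨r * σ, ext4 ?_ ?_ ?_ ?_⟩
    · rw [gam0]
      simp [m0, e0, ← hc, ← hr', hrc]
    · rw [gam1]
      simp [m0, e0, ← hσ, ← hr']
    · rw [gam2]
      simp [m0, e0]
    · rw [gam3]
      simp [m0, e0]
  · intro t ht
    have hpi := Real.pi_pos
    refine ⟨Real.arctan t / (2 * Real.pi), ?_⟩
    have h2 : 2 * Real.pi * (Real.arctan t / (2 * Real.pi)) = Real.arctan t := by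
      field_simp
    have hc1 : 3 / 4 ≤ Real.cos (Real.arctan t) := by
      rw [Real.cos_arctan]
      rw [div_le_div_iff₀ (by norm_num) (by positivity)]
      have : Real.sqrt (1 + t ^ 2) ≤ 4 / 3 := by
        rw [Real.sqrt_le_left (by norm_num)]
        have := abs_lt.1 ht
        nlinarith
      linarith
    have hcp : 0 < Real.cos (Real.arctan t) := Real.cos_arctan_pos t
    have hr : rad (Real.arctan t / (2 * Real.pi)) = (Real.cos (Real.arctan t))⁻¹ := by
      unfold rad
      rw [h2, den_one hc1]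
    have ht' : Real.sin (Real.arctan t) = t * Real.cos (Real.arctan t) := by
      have := Real.tan_arctan t
      rw [Real.tan_eq_sin_div_cos, div_eq_iff hcp.ne'] at this
      exact this
    refine ext4 ?_ ?_ ?_ ?_
    · rw [gam0, hr, h2, inv_mul_cancel₀ hcp.ne']
      simp [m0, e0]
    · rw [gam1, hr, h2, ht']
      have : (Real.cos (Real.arctan t))⁻¹ * (t * Real.cos (Real.arctan t)) = t := by
        field_simp
      rw [this]
      simp [m0, e0]
    · rw [gam2]
      simp [m0, e0]
    · rw [gam3]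
      simp [m0, e0]

end Pool.Agent.Q181.SV
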