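import Pool.Agent.Q181.SV.Stm

set_option autoImplicit false

namespace Pool.Agent.Q181.SV

open Set Metric

theorem norm_comb {f : Fin 4 → E 4} (hf : Orthonormal ℝ f) (a b c d : ℝ) :
    ‖a • f 0 + b • f 1 + c • f 2 + d • f 3‖ ^ 2 = a ^ 2 + b ^ 2 + c ^ 2 + d ^ 2 := by
  have hin : ∀ i j, inner ℝ (f i) (f j) = if i = j then (1 : ℝ) else 0 :=
    orthonormal_iff_ite.1 hf
  rw [← real_inner_self_eq_norm_sq]
  simp only [inner_add_left, inner_add_right, real_inner_smul_left, real_inner_smul_right, hin]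
  simp
  ring

theorem dist_L {f : Fin 4 → E 4} (hf : Orthonormal ℝ f) (m : E 4)
    (s l x y z h x' y' z' h' : ℝ) :
    dist (L m f s l x y z h) (L m f s l x' y' z' h') ^ 2 =
      s ^ 2 * (x - x') ^ 2 + l ^ 2 * ((y - y') ^ 2 + (z - z') ^ 2 + (h - h') ^ 2) := by
  have h1 : L m f s l x y z h - L m f s l x' y' z' h' =
      (s * (x - x')) • f 0 + (l * (y - y')) • f 1 + (l * (z - z')) • f 2 + (l * (h - h')) • f 3 := by
    unfold L
    module
  rw [dist_eq_norm, h1, norm_comb hf]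
  ring

theorem L_zero (m : E 4) (f : Fin 4 → E 4) (s l : ℝ) : L m f s l 0 0 0 0 = m := by
  simp [L]

theorem dist_lt_of {f : Fin 4 → E 4} (hf : Orthonormal ℝ f) (m : E 4)
    (s l x y z h x' y' z' h' b : ℝ) (hb : 0 < b)
    (H : s ^ 2 * (x - x') ^ 2 + l ^ 2 * ((y - y') ^ 2 + (z - z') ^ 2 + (h - h') ^ 2) < b ^ 2) :
    dist (L m f s l x y z h) (L m f s l x' y' z' h') < b := by
  rw [← dist_L hf m] at H
  exact lt_of_pow_lt_pow_left₀ 2 hb.le H

theorem le_dist_of {f : Fin 4 → E 4} (hf : Orthonormal ℝ f) (m : E 4)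
    (s l x y z h x' y' z' h' b : ℝ)
    (H : b ^ 2 ≤ s ^ 2 * (x - x') ^ 2 + l ^ 2 * ((y - y') ^ 2 + (z - z') ^ 2 + (h - h') ^ 2)) :
    b ≤ dist (L m f s l x y z h) (L m f s l x' y' z' h') := by
  rw [← dist_L hf m] at H
  exact le_of_sq_le_sq H dist_nonneg

end Pool.Agent.Q181.SV
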