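import Pool.Agent.Q181.SV.Coord
import Pool.Agent.Q181.SV.Adj

set_option autoImplicit false

namespace Pool.Agent.Q181.SV

open Set Metric

theorem comb4 (m : E 4) (f : Fin 4 → E 4) (s l : ℝ) (a b c d : ℝ) (h : a + b + c + d = 1)
    (x₁ y₁ z₁ h₁ x₂ y₂ z₂ h₂ x₃ y₃ z₃ h₃ x₄ y₄ z₄ h₄ : ℝ) :
    a • L m f s l x₁ y₁ z₁ h₁ + b • L m f s l x₂ y₂ z₂ h₂ + c • L m f s l x₃ y₃ z₃ h₃ +
      d • L m f s l x₄ y₄ z₄ h₄ =
    L m f s l (a * x₁ + b * x₂ + c * x₃ + d * x₄) (a * y₁ + b * y₂ + c * y₃ + d * y₄)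
      (a * z₁ + b * z₂ + c * z₃ + d * z₄) (a * h₁ + b * h₂ + c * h₃ + d * h₄) := by
  unfold L
  have h1 : m = a • m + b • m + c • m + d • m := by
    rw [← add_smul, ← add_smul, ← add_smul, h, one_smul]
  conv_rhs => rw [h1]
  module

theorem mem_hull4 {A B C D : E 4} {a b c d : ℝ} (ha : 0 ≤ a) (hb : 0 ≤ b) (hc : 0 ≤ c)
    (hd : 0 ≤ d) (h : a + b + c + d = 1) :
    a • A + b • B + c • C + d • D ∈ convexHull ℝ ({A, B, C, D} : Set (E 4)) := by
  have hA : A ∈ convexHull ℝ ({A, B, C, D} : Set (E 4)) := subset_convexHull _ _ (by simp)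
  have hB : B ∈ convexHull ℝ ({A, B, C, D} : Set (E 4)) := subset_convexHull _ _ (by simp)
  have hC : C ∈ convexHull ℝ ({A, B, C, D} : Set (E 4)) := subset_convexHull _ _ (by simp)
  have hD : D ∈ convexHull ℝ ({A, B, C, D} : Set (E 4)) := subset_convexHull _ _ (by simp)
  have hcx := convex_convexHull ℝ ({A, B, C, D} : Set (E 4))
  have := hcx.sum_mem (t := Finset.univ) (w := ![a, b, c, d]) (z := ![A, B, C, D])
    (by intro i _; fin_cases i <;> simp [ha, hb, hc, hd])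
    (by simp [Fin.sum_univ_four, h])
    (by intro i _; fin_cases i <;> simp [hA, hB, hC, hD])
  simpa [Fin.sum_univ_four] using this

open Classical in
theorem clique {β : ℝ} (S : Set (E 4)) {A B C D x : E 4} (hA : A ∈ S) (hB : B ∈ S) (hC : C ∈ S)
    (hD : D ∈ S) (hAB : dist A B < β) (hAC : dist A C < β) (hAD : dist A D < β)
    (hBC : dist B C < β) (hBD : dist B D < β) (hCD : dist C D < β)
    (hx : x ∈ convexHull ℝ ({A, B, C, D} : Set (E 4))) : x ∈ shadow β S := by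
  have hco : ((({A, B, C, D} : Finset (E 4)) : Finset (E 4)) : Set (E 4)) = {A, B, C, D} := by
    simp
  obtain ⟨r, hr, h1, h2, h3, h4, h5, h6⟩ : ∃ r : ℝ, r < β ∧ dist A B ≤ r ∧ dist A C ≤ r ∧
      dist A D ≤ r ∧ dist B C ≤ r ∧ dist B D ≤ r ∧ dist C D ≤ r := by
    refine ⟨max (dist A B) (max (dist A C) (max (dist A D) (max (dist B C)
      (max (dist B D) (dist C D))))), ?_, ?_, ?_, ?_, ?_, ?_, ?_⟩
    · simp only [max_lt_iff]
      exact ⟨hAB, hAC, hAD, hBC, hBD, hCD⟩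
    all_goals simp
  have hr0 : 0 ≤ r := dist_nonneg.trans h1
  refine ⟨{A, B, C, D}, ⟨A, by simp⟩, ?_, ?_, ?_⟩
  · rw [hco]
    rintro y (rfl | rfl | rfl | rfl) <;> assumption
  · rw [hco]
    refine lt_of_le_of_lt (diam_le_of_forall_dist_le hr0 ?_) hr
    rintro y (rfl | rfl | rfl | rfl) z (rfl | rfl | rfl | rfl) <;>
      first | (rw [dist_self]; exact hr0) | assumption | (rw [dist_comm]; assumption)
  · rw [hco]
    exact hx

theorem mem_L_eq {m : E 4} {f : Fin 4 → E 4} {s l x y z h x' y' z' h' : ℝ} {Q : Set (E 4)}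
    (key : L m f s l x' y' z' h' ∈ Q) (hx : x = x') (hy : y = y') (hz : z = z') (hh : h = h') :
    L m f s l x y z h ∈ Q := by
  subst hx hy hz hh
  exact key

theorem lt_sub_le (g : E 4 → ℝ) : {p | g p < 0} ⊆ {p | g p ≤ 0} := by
  intro p hp
  exact le_of_lt (show g p < 0 from hp)

theorem t_facet : S_adj1 → S_facet := by
  intro hA1 m f β s l T₁ T₂ hf hP F
  obtain ⟨hl, hl1, hT1, hT2, hlT1, hlT2⟩ := hP.facts
  have hs : 0 < s := hP.2.1
  obtain ⟨⟨e1, e2, e3, e4, e5, e6⟩, ⟨e7, e8, e9⟩, ⟨e10, e11, e12⟩, ⟨e13, e14, e15⟩,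
    e16, e17, e18⟩ := hA1 m f β s l T₁ T₂ hf hP
  have hmem : ∀ p ∈ Sp m f s l T₁ T₂, p ∈ F ∪ Sp m f s l T₁ T₂ := fun p hp => Or.inr hp
  have m1 := hmem (L m f s l 0 (-1) 0 0) (by simp [Sp])
  have m2 := hmem (L m f s l 0 1 0 0) (by simp [Sp])
  have m3 := hmem (L m f s l 6 8 7 0) (by simp [Sp])
  have m4 := hmem (L m f s l 6 8 9 0) (by simp [Sp])
  have m5 := hmem (L m f s l (6 - 3 * T₁) (8 - 7 * T₁) 7 T₁) (by simp [Sp])
  have m6 := hmem (L m f s l (4 - T₂) (5 - 4 * T₂) (6 + T₂) T₂) (by simp [Sp])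
  have m7 := hmem (L m f s l (2 + T₂) (2 - T₂) (3 + 4 * T₂) T₂) (by simp [Sp])
  have m8 := hmem (L m f s l (3 * T₁) 1 (7 * T₁) T₁) (by simp [Sp])
  set C : Set (E 4) := {p | G m f s l 7 0 (-6) 21 0 p ≤ 0} ∩ {p | G m f s l (-9) 0 6 (-15) 0 p ≤ 0} ∩
    {p | G m f s l 9 (-6) 0 (-15) (-6) p ≤ 0} ∩ {p | G m f s l (-7) 6 0 21 (-6) p ≤ 0} ∩
    {p | G m f s l 0 0 0 (-1) 0 p ≤ 0} with hC
  have hcl : IsClosed C := by
    refine ((((IsClosed.inter ?_ ?_).inter ?_).inter ?_).inter ?_) <;>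
      exact isClosed_le (continuous_G _ _ _ _ _ _ _ _ _) continuous_const
  -- coordinates of the points of `C`
  have hco : ∀ p ∈ C, ∃ x y z h : ℝ, p = L m f s l x y z h ∧ 0 ≤ -7 * x + 6 * z - 21 * h ∧
      0 ≤ 9 * x - 6 * z + 15 * h ∧ 0 ≤ -9 * x + 6 * y + 15 * h + 6 ∧
      0 ≤ 7 * x - 6 * y - 21 * h + 6 ∧ 0 ≤ h := by
    intro p hp
    obtain ⟨x, y, z, h, rfl⟩ := exists_L hf m hs.ne' hl.ne' p
    obtain ⟨⟨⟨⟨p1, p2⟩, p3⟩, p4⟩, p5⟩ := hp
    simp only [mem_setOf_eq, G_L hf m hs.ne' hl.ne'] at p1 p2 p3 p4 p5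
    exact ⟨x, y, z, h, rfl, by linarith, by linarith, by linarith, by linarith, by linarith⟩
  refine ⟨C, ?_, ?_, ?_, ?_⟩
  · exact ((((convex_G _ _ _ _ _ _ _ _ _ _).inter (convex_G _ _ _ _ _ _ _ _ _ _)).inter
      (convex_G _ _ _ _ _ _ _ _ _ _)).inter (convex_G _ _ _ _ _ _ _ _ _ _)).inter
      (convex_G _ _ _ _ _ _ _ _ _ _)
  · -- bounded
    refine (isCompact_closedBall (m : E 4) (100 * s + 100 * l)).of_isClosed_subset hcl ?_
    intro p hp
    obtain ⟨x, y, z, h, rfl, g1, g2, g3, g4, g5⟩ := hco p hp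
    have x0 : 0 ≤ x := by linarith
    have x1 : x ≤ 6 := by linarith
    have h1 : h ≤ 1 := by linarith
    have y0 : |y| ≤ 20 := by rw [abs_le]; constructor <;> linarith
    have z0 : |z| ≤ 20 := by rw [abs_le]; constructor <;> linarith
    have y2 : y ^ 2 ≤ 400 := by
      rw [← sq_abs]
      nlinarith [abs_nonneg y]
    have z2 : z ^ 2 ≤ 400 := by
      rw [← sq_abs]
      nlinarith [abs_nonneg z]
    have x2 : x ^ 2 ≤ 36 := by nlinarith
    have h2 : h ^ 2 ≤ 1 := by nlinarith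
    rw [mem_closedBall]
    apply le_of_sq_le_sq _ (by positivity)
    have := dist_L hf m s l x y z h 0 0 0 0
    rw [L_zero] at this
    rw [this]
    have k1 : s ^ 2 * x ^ 2 ≤ s ^ 2 * 36 := mul_le_mul_of_nonneg_left x2 (by positivity)
    have k2 : l ^ 2 * (y ^ 2 + z ^ 2 + h ^ 2) ≤ l ^ 2 * 801 :=
      mul_le_mul_of_nonneg_left (by linarith) (by positivity)
    have k3 : 0 < s * l := by positivity
    simp only [sub_zero]
    nlinarith
  · -- the centre
    rw [mem_interior]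
    refine ⟨{p | G m f s l 7 0 (-6) 21 0 p < 0} ∩ {p | G m f s l (-9) 0 6 (-15) 0 p < 0} ∩
      {p | G m f s l 9 (-6) 0 (-15) (-6) p < 0} ∩ {p | G m f s l (-7) 6 0 21 (-6) p < 0} ∩
      {p | G m f s l 0 0 0 (-1) 0 p < 0}, ?_, ?_, ?_⟩
    · exact inter_subset_inter (inter_subset_inter (inter_subset_inter (inter_subset_inter
        (lt_sub_le _) (lt_sub_le _)) (lt_sub_le _)) (lt_sub_le _)) (lt_sub_le _)
    · refine ((((IsOpen.inter ?_ ?_).inter ?_).inter ?_).inter ?_) <;>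
        exact isOpen_lt (continuous_G _ _ _ _ _ _ _ _ _) continuous_const
    · unfold cen
      refine ⟨⟨⟨⟨?_, ?_⟩, ?_⟩, ?_⟩, ?_⟩ <;>
        simp only [mem_setOf_eq, G_L hf m hs.ne' hl.ne'] <;> norm_num
  · -- the boundary
    intro p hp
    have hpC : p ∈ C := hcl.frontier_subset hp
    have hpi : p ∉ interior C := hp.2
    have hex : ¬ (G m f s l 7 0 (-6) 21 0 p < 0 ∧ G m f s l (-9) 0 6 (-15) 0 p < 0 ∧
        G m f s l 9 (-6) 0 (-15) (-6) p < 0 ∧ G m f s l (-7) 6 0 21 (-6) p < 0 ∧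
        G m f s l 0 0 0 (-1) 0 p < 0) := by
      rintro ⟨p1, p2, p3, p4, p5⟩
      apply hpi
      rw [mem_interior]
      refine ⟨{p | G m f s l 7 0 (-6) 21 0 p < 0} ∩ {p | G m f s l (-9) 0 6 (-15) 0 p < 0} ∩
        {p | G m f s l 9 (-6) 0 (-15) (-6) p < 0} ∩ {p | G m f s l (-7) 6 0 21 (-6) p < 0} ∩
        {p | G m f s l 0 0 0 (-1) 0 p < 0}, ?_, ?_, ?_⟩
      · exact inter_subset_inter (inter_subset_inter (inter_subset_inter (inter_subset_inter
          (lt_sub_le _) (lt_sub_le _)) (lt_sub_le _)) (lt_sub_le _)) (lt_sub_le _)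
      · refine ((((IsOpen.inter ?_ ?_).inter ?_).inter ?_).inter ?_) <;>
          exact isOpen_lt (continuous_G _ _ _ _ _ _ _ _ _) continuous_const
      · exact ⟨⟨⟨⟨p1, p2⟩, p3⟩, p4⟩, p5⟩
    obtain ⟨x, y, z, h, rfl, g1, g2, g3, g4, g5⟩ := hco p hpC
    simp only [G_L hf m hs.ne' hl.ne'] at hex
    obtain ⟨r₁, hr₁⟩ : ∃ r, r = 1 / T₁ := ⟨_, rfl⟩
    obtain ⟨r₂, hr₂⟩ : ∃ r, r = 1 / T₂ := ⟨_, rfl⟩
    have q1 : r₁ * T₁ = 1 := by rw [hr₁]; field_simp
    have q2 : r₂ * T₂ = 1 := by rw [hr₂]; field_simp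
    have r10 : 0 ≤ r₁ := by rw [hr₁]; positivity
    have r20 : 0 ≤ r₂ := by rw [hr₂]; positivity
    have r11 : r₁ ≤ 1 := by nlinarith
    have r21 : r₂ ≤ 1 := by nlinarith
    have s1 : 0 ≤ h * r₁ := mul_nonneg g5 r10
    have s2 : 0 ≤ h * r₂ := mul_nonneg g5 r20
    have s3 : 0 ≤ h * (1 - r₁) := mul_nonneg g5 (by linarith)
    have s4 : 0 ≤ h * (1 - r₂) := mul_nonneg g5 (by linarith)
    by_cases f1 : h = 0
    · have key := mem_hull4 (A := L m f s l 0 (-1) 0 0) (B := L m f s l 0 1 0 0)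
        (C := L m f s l 6 8 7 0) (D := L m f s l 6 8 9 0)
        (a := (7 * x - 6 * y - 21 * h + 6) / 12) (b := (-9 * x + 6 * y + 15 * h + 6) / 12)
        (c := (9 * x - 6 * z + 15 * h) / 12) (d := (-7 * x + 6 * z - 21 * h) / 12)
        (by linarith) (by linarith) (by linarith) (by linarith) (by rw [f1]; ring)
      rw [comb4 _ _ _ _ _ _ _ _ (by rw [f1]; ring)] at key
      refine clique _ m1 m2 m3 m4 e1 e2 e3 e4 e5 e6 ?_
      refine mem_L_eq key ?_ ?_ ?_ ?_ <;> subst f1 <;> ring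
    have hpos : 0 < h := lt_of_le_of_ne g5 (Ne.symm f1)
    by_cases f2 : -7 * x + 6 * z - 21 * h = 0
    · have hsum : (7 * x - 6 * y - 21 * h + 6) / 12 + (-9 * x + 6 * y + 15 * h + 6) / 12 +
          ((9 * x - 6 * z + 15 * h) / 12 + h * (1 - r₁)) + h * r₁ = 1 := by linarith
      have key := mem_hull4 (A := L m f s l 0 (-1) 0 0) (B := L m f s l 0 1 0 0)
        (C := L m f s l 6 8 7 0) (D := L m f s l (6 - 3 * T₁) (8 - 7 * T₁) 7 T₁)
        (by linarith) (by linarith) (by linarith) s1 hsum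
      rw [comb4 _ _ _ _ _ _ _ _ hsum] at key
      refine clique _ m1 m2 m3 m5 e1 e2 (by rw [dist_comm]; exact e7) e4
        (by rw [dist_comm]; exact e8) (by rw [dist_comm]; exact e9) ?_
      refine mem_L_eq key ?_ ?_ ?_ ?_
      · linear_combination (1 / 2 : ℝ) * f2 * 1 + (3 * h) * q1 * 1
      · linear_combination (2 / 3 : ℝ) * f2 * 1 + (7 * h) * q1 * 1
      · linear_combination (3 / 4 : ℝ) * f2
      · linear_combination (-h) * q1
    by_cases f3 : 9 * x - 6 * z + 15 * h = 0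
    · have hsum : ((7 * x - 6 * y - 21 * h + 6) / 12 + h * (1 - r₂) / 3) +
          (-9 * x + 6 * y + 15 * h + 6) / 12 +
          ((-7 * x + 6 * z - 21 * h) / 12 + 2 * (h * (1 - r₂)) / 3) + h * r₂ = 1 := by linarith
      have key := mem_hull4 (A := L m f s l 0 (-1) 0 0) (B := L m f s l 0 1 0 0)
        (C := L m f s l 6 8 9 0) (D := L m f s l (4 - T₂) (5 - 4 * T₂) (6 + T₂) T₂)
        (by linarith) (by linarith) (by linarith) s2 hsum
      rw [comb4 _ _ _ _ _ _ _ _ hsum] at key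
      refine clique _ m1 m2 m4 m6 e1 e3 (by rw [dist_comm]; exact e10) e5
        (by rw [dist_comm]; exact e11) (by rw [dist_comm]; exact e12) ?_
      refine mem_L_eq key ?_ ?_ ?_ ?_
      · linear_combination (1 / 2 : ℝ) * f3 + h * q2
      · linear_combination (2 / 3 : ℝ) * f3 + (4 * h) * q2
      · linear_combination (3 / 4 - 1 / 6 : ℝ) * f3 + (-h) * q2
      · linear_combination (-h) * q2
    by_cases f4 : -9 * x + 6 * y + 15 * h + 6 = 0
    · have hsum : ((7 * x - 6 * y - 21 * h + 6) / 12 + 2 * (h * (1 - r₂)) / 3) +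
          (9 * x - 6 * z + 15 * h) / 12 +
          ((-7 * x + 6 * z - 21 * h) / 12 + h * (1 - r₂) / 3) + h * r₂ = 1 := by linarith
      have key := mem_hull4 (A := L m f s l 0 (-1) 0 0) (B := L m f s l 6 8 7 0)
        (C := L m f s l 6 8 9 0) (D := L m f s l (2 + T₂) (2 - T₂) (3 + 4 * T₂) T₂)
        (by linarith) (by linarith) (by linarith) s2 hsum
      rw [comb4 _ _ _ _ _ _ _ _ hsum] at key
      refine clique _ m1 m3 m4 m7 e2 e3 (by rw [dist_comm]; exact e15) e6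
        (by rw [dist_comm]; exact e13) (by rw [dist_comm]; exact e14) ?_
      refine mem_L_eq key ?_ ?_ ?_ ?_
      · linear_combination (-h) * q2
      · linear_combination (1 / 12 : ℝ) * f4 + h * q2
      · linear_combination (-4 * h) * q2
      · linear_combination (-h) * q2
    by_cases f5 : 7 * x - 6 * y - 21 * h + 6 = 0
    · have hsum : ((-9 * x + 6 * y + 15 * h + 6) / 12 + h * (1 - r₁)) +
          (9 * x - 6 * z + 15 * h) / 12 + (-7 * x + 6 * z - 21 * h) / 12 + h * r₁ = 1 := by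
        linarith
      have key := mem_hull4 (A := L m f s l 0 1 0 0) (B := L m f s l 6 8 7 0)
        (C := L m f s l 6 8 9 0) (D := L m f s l (3 * T₁) 1 (7 * T₁) T₁)
        (by linarith) (by linarith) (by linarith) s1 hsum
      rw [comb4 _ _ _ _ _ _ _ _ hsum] at key
      refine clique _ m2 m3 m4 m8 e4 e5 (by rw [dist_comm]; exact e18) e6
        (by rw [dist_comm]; exact e16) (by rw [dist_comm]; exact e17) ?_
      refine mem_L_eq key ?_ ?_ ?_ ?_
      · linear_combination (-3 * h) * q1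
      · linear_combination (-1 / 12 : ℝ) * f5
      · linear_combination (-7 * h) * q1
      · linear_combination (-h) * q1
    · exfalso
      apply hex
      have u2 := lt_of_le_of_ne g1 (Ne.symm f2)
      have u3 := lt_of_le_of_ne g2 (Ne.symm f3)
      have u4 := lt_of_le_of_ne g3 (Ne.symm f4)
      have u5 := lt_of_le_of_ne g4 (Ne.symm f5)
      refine ⟨?_, ?_, ?_, ?_, ?_⟩ <;> linarith

end Pool.Agent.Q181.SV
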