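import Pool.Agent.Q181.SV.Stm

set_option autoImplicit false

namespace Pool.Agent.Q181.SV

open Set Metric

theorem t_frame : S_frame := by
  intro e n he hn hen κ
  obtain ⟨b, hb⟩ : ∃ b : OrthonormalBasis (Fin 4) ℝ (E 4), b 0 = e ∧ b 3 = n := by
    let v : Fin 4 → E 4 := ![e, 0, 0, n]
    have hee : inner ℝ e e = (1 : ℝ) := by rw [real_inner_self_eq_norm_sq, he]; norm_num
    have hnn : inner ℝ n n = (1 : ℝ) := by rw [real_inner_self_eq_norm_sq, hn]; norm_num
    have hne : inner ℝ n e = (0 : ℝ) := by rw [real_inner_comm]; exact hen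
    have hs : Orthonormal ℝ (({0, 3} : Set (Fin 4)).restrict v) := by
      rw [orthonormal_iff_ite]
      rintro ⟨i, hi⟩ ⟨j, hj⟩
      simp only [mem_insert_iff, mem_singleton_iff] at hi hj
      rcases hi with rfl | rfl <;> rcases hj with rfl | rfl
      · change inner ℝ e e = _; rw [hee]; simp
      · change inner ℝ e n = _; rw [hen]; simp
      · change inner ℝ n e = _; rw [hne]; simp
      · change inner ℝ n n = _; rw [hnn]; simp
    obtain ⟨b, hb⟩ := hs.exists_orthonormalBasis_extension_of_card_eq (by simp)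
    exact ⟨b, hb 0 (by simp), hb 3 (by simp)⟩
  obtain ⟨hb0, hb3⟩ := hb
  set c : ℝ := Real.sqrt (9 + 32 * κ ^ 2) with hc
  have hc2 : c ^ 2 = 9 + 32 * κ ^ 2 := Real.sq_sqrt (by positivity)
  have hc0 : 0 < c := Real.sqrt_pos.2 (by positivity)
  obtain ⟨r, hr0, hr2⟩ : ∃ r : ℝ, 0 < r ∧ r ^ 2 = 2 :=
    ⟨Real.sqrt 2, Real.sqrt_pos.2 (by norm_num), Real.sq_sqrt (by norm_num)⟩
  have hin : ∀ i j, inner ℝ (b i) (b j) = if i = j then (1 : ℝ) else 0 :=
    orthonormal_iff_ite.1 b.orthonormal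
  obtain ⟨A, hA⟩ : ∃ A : ℝ, A = 3 / c := ⟨_, rfl⟩
  obtain ⟨B, hB⟩ : ∃ B : ℝ, B = 4 * κ / c := ⟨_, rfl⟩
  obtain ⟨D, hD⟩ : ∃ D : ℝ, D = 8 * κ / (r * c) := ⟨_, rfl⟩
  obtain ⟨F, hF⟩ : ∃ F : ℝ, F = 3 / (r * c) := ⟨_, rfl⟩
  obtain ⟨Q, hQ⟩ : ∃ Q : ℝ, Q = 1 / r := ⟨_, rfl⟩
  have hpos : (0 : ℝ) < 9 + 32 * κ ^ 2 := by positivity
  have h1 : A * A + D * D = 1 := by
    rw [hA, hD, div_mul_div_comm, div_mul_div_comm,
      show c * c = 9 + 32 * κ ^ 2 by rw [← hc2]; ring,
      show r * c * (r * c) = 2 * (9 + 32 * κ ^ 2) by rw [← hc2, ← hr2]; ring]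
    field_simp
    ring
  have h2 : A * B - D * F = 0 := by
    rw [hA, hD, hB, hF, div_mul_div_comm, div_mul_div_comm,
      show c * c = 9 + 32 * κ ^ 2 by rw [← hc2]; ring,
      show r * c * (r * c) = 2 * (9 + 32 * κ ^ 2) by rw [← hc2, ← hr2]; ring]
    field_simp
    ring
  have h3 : Q * Q = 1 / 2 := by
    rw [hQ, div_mul_div_comm, show r * r = 2 by rw [← hr2]; ring]
    norm_num
  have h4 : B * B + F * F = 1 / 2 := by
    rw [hB, hF, div_mul_div_comm, div_mul_div_comm,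
      show c * c = 9 + 32 * κ ^ 2 by rw [← hc2]; ring,
      show r * c * (r * c) = 2 * (9 + 32 * κ ^ 2) by rw [← hc2, ← hr2]; ring]
    field_simp
    ring
  let f : Fin 4 → E 4 := ![A • b 0 + (-D) • b 2, B • b 0 + Q • b 1 + F • b 2,
    B • b 0 + (-Q) • b 1 + F • b 2, b 3]
  have f0 : f 0 = A • b 0 + (-D) • b 2 := rfl
  have f1 : f 1 = B • b 0 + Q • b 1 + F • b 2 := rfl
  have f2 : f 2 = B • b 0 + (-Q) • b 1 + F • b 2 := rfl
  have f3 : f 3 = b 3 := rfl
  refine ⟨f, ?_, hb3, ?_⟩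
  · rw [orthonormal_iff_ite]
    have key : ∀ i j : Fin 4, i ≤ j → inner ℝ (f i) (f j) = if i = j then (1 : ℝ) else 0 := by
      intro i j hij
      fin_cases i <;> fin_cases j <;> first | (exact absurd hij (by decide)) | skip
      all_goals simp only [Fin.zero_eta, Fin.mk_one, Fin.reduceFinMk, f0, f1, f2, f3,
        inner_add_left, inner_add_right, real_inner_smul_left, real_inner_smul_right, hin]
      all_goals simp
      · linarith
      · linarith
      · linarith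
      · linarith
      · linarith
      · linarith
    intro i j
    rcases le_total i j with h | h
    · exact key i j h
    · rw [real_inner_comm, key j i h]
      simp [eq_comm]
  · rw [f0, f1, f2, ← hb0]
    have h5 : (3 : ℝ) • (A • b 0 + (-D) • b 2) + (4 * κ) • (B • b 0 + Q • b 1 + F • b 2) +
        (4 * κ) • (B • b 0 + (-Q) • b 1 + F • b 2) =
        (3 * A + 8 * κ * B) • b 0 + (8 * κ * F - 3 * D) • b 2 := by module
    have h6 : 8 * κ * F - 3 * D = 0 := by
      rw [hF, hD]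
      ring
    have h7 : 3 * A + 8 * κ * B = c := by
      rw [hA, hB]
      field_simp
      rw [hc2]
      ring
    rw [h5, h6, h7, zero_smul, add_zero]

end Pool.Agent.Q181.SV
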