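import Pool.Agent.Q181.SV.Stm

set_option autoImplicit false

namespace Pool.Agent.Q181.SV

open Set Metric

theorem t_net : S_net := by
  intro M hM m e R g η he hg hgR hη hseg
  set M' : Set (E 4) := M \ {x | ∃ t : ℝ, |t| < g ∧ x = m + t • e} with hM'
  have htb : TotallyBounded M' := hM.totallyBounded.subset diff_subset
  obtain ⟨F, hF1, hF2, hF3⟩ := Metric.finite_approx_of_totallyBounded htb η hη
  have he0 : e ≠ 0 := by
    rintro rfl
    norm_num at he
  have hpt : m + g • e ∈ M' := by
    refine ⟨hseg g (by rw [abs_of_pos hg]; linarith), ?_⟩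
    rintro ⟨t, ht, h⟩
    have h1 : g • e = t • e := add_left_cancel h
    have h2 : g = t := smul_left_injective ℝ he0 h1
    rw [← h2, abs_of_pos hg] at ht
    exact lt_irrefl _ ht
  have hnear : ∀ x ∈ M', ∃ p ∈ F, dist x p < η := by
    intro x hx
    have := hF3 hx
    simp only [mem_iUnion, mem_ball, exists_prop] at this
    exact this
  refine ⟨F, hF2, hF1.trans diff_subset, ?_, ?_, ?_⟩
  · obtain ⟨p, hp, -⟩ := hnear _ hpt
    exact ⟨p, hp⟩
  · intro t ht h
    exact (hF1 h).2 ⟨t, ht, rfl⟩
  · intro x hx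
    by_cases h : x ∈ M'
    · obtain ⟨p, hp, hd⟩ := hnear x h
      exact ⟨p, hp, by linarith⟩
    · have h1 : ∃ t : ℝ, |t| < g ∧ x = m + t • e := by
        by_contra h2
        exact h ⟨hx, h2⟩
      obtain ⟨t, ht, rfl⟩ := h1
      obtain ⟨p, hp, hd⟩ := hnear _ hpt
      refine ⟨p, hp, ?_⟩
      have h3 : dist (m + t • e) (m + g • e) < 2 * g := by
        rw [dist_eq_norm]
        have h4 : (m + t • e) - (m + g • e) = (t - g) • e := by
          rw [sub_smul]
          abel
        rw [h4, norm_smul, he, mul_one, Real.norm_eq_abs]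
        have := abs_lt.1 ht
        rw [abs_lt]
        constructor <;> linarith
      calc dist (m + t • e) p ≤ dist (m + t • e) (m + g • e) + dist (m + g • e) p :=
            dist_triangle _ _ _
        _ < 2 * g + η := by linarith

end Pool.Agent.Q181.SV
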