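import Pool.Agent.Q181.SV.Stm

set_option autoImplicit false

namespace Pool.Agent.Q181.SV

open Set Metric

theorem t_param : S_param := by
  intro β s l hβ hs h1 h2
  have hl : 0 < l := by
    have : 0 < l * β := by rw [h2]; positivity
    exact (pos_iff_pos_of_mul_pos this).2 hβ
  have hl1 : 100 * l ≤ s := by
    by_contra hc
    rw [not_le] at hc
    have : l * (100 * s) ≤ l * β := mul_le_mul_of_nonneg_left h1 hl.le
    nlinarith
  have a5 : 10000 * s ^ 2 ≤ β ^ 2 := by nlinarith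
  have a6 : 10000 * l ^ 2 ≤ s ^ 2 := by nlinarith
  have hS : 0 < s ^ 2 := by positivity
  have hΛ : 0 < l ^ 2 := by positivity
  -- the first parameter
  have hnum : 0 < β ^ 2 - 2 * l ^ 2 := by nlinarith
  have hden : 0 < 9 * s ^ 2 + 50 * l ^ 2 := by positivity
  set T₁ : ℝ := Real.sqrt ((β ^ 2 - 2 * l ^ 2) / (9 * s ^ 2 + 50 * l ^ 2)) with hT₁
  have hT0 : 0 ≤ T₁ := Real.sqrt_nonneg _
  have hT1 : T₁ ^ 2 * (9 * s ^ 2 + 50 * l ^ 2) = β ^ 2 - 2 * l ^ 2 := by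
    rw [hT₁, Real.sq_sqrt (by positivity)]
    field_simp
  have hle1 : 3 * s * T₁ ≤ β := by
    apply le_of_sq_le_sq _ hβ.le
    nlinarith [mul_nonneg hΛ.le (sq_nonneg T₁)]
  have hlT1 : 3 * (l * T₁) ≤ s := by
    have e1 := mul_le_mul_of_nonneg_left hle1 hl.le
    have e2 : s * (3 * (l * T₁)) ≤ s * s := by nlinarith
    exact le_of_mul_le_mul_left e2 hs
  have hge1 : 9 * β ≤ 10 * (3 * s * T₁) := by
    apply le_of_sq_le_sq _ (by positivity)
    have e1 : (l * T₁) ^ 2 * 9 ≤ s ^ 2 := by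
      have := pow_le_pow_left₀ (by positivity) hlT1 2
      nlinarith
    nlinarith
  -- the second parameter
  let F : ℝ → ℝ := fun T => s ^ 2 * (T + 2) ^ 2 + l ^ 2 * ((4 * T + 3) ^ 2 + (T - 3) ^ 2 + T ^ 2)
  have hF : Continuous F := by fun_prop
  have hab : 9 * β / (10 * s) ≤ β / s := by
    rw [div_le_div_iff₀ (by positivity) hs]
    nlinarith [mul_pos hβ hs]
  have hFa : F (9 * β / (10 * s)) ≤ β ^ 2 - 2 * l ^ 2 := by
    set A : ℝ := 9 * β / (10 * s) with hA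
    have hsA : s * A = 9 / 10 * β := by rw [hA]; field_simp
    have hlA : l * A = 9 / 10 * s := by
      have e1 : s * (l * A) = s * (9 / 10 * s) := by
        calc s * (l * A) = l * (s * A) := by ring
          _ = 9 / 10 * (l * β) := by rw [hsA]; ring
          _ = s * (9 / 10 * s) := by rw [h2]; ring
      exact mul_left_cancel₀ hs.ne' e1
    change s ^ 2 * (A + 2) ^ 2 + l ^ 2 * ((4 * A + 3) ^ 2 + (A - 3) ^ 2 + A ^ 2) ≤ β ^ 2 - 2 * l ^ 2
    have e2 : s ^ 2 * (A + 2) ^ 2 + l ^ 2 * ((4 * A + 3) ^ 2 + (A - 3) ^ 2 + A ^ 2) =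
        (s * A + 2 * s) ^ 2 + 18 * (l * A) ^ 2 + 18 * l * (l * A) + 18 * l ^ 2 := by ring
    rw [e2, hsA, hlA]
    have e3 : l * s ≤ s ^ 2 := by nlinarith
    have e4 : β * s * 100 ≤ β ^ 2 := by nlinarith
    nlinarith
  have hFb : β ^ 2 - 2 * l ^ 2 ≤ F (β / s) := by
    set A : ℝ := β / s with hA
    have hA0 : 0 ≤ A := by positivity
    have hsA : s * A = β := by rw [hA]; field_simp
    change _ ≤ s ^ 2 * (A + 2) ^ 2 + l ^ 2 * ((4 * A + 3) ^ 2 + (A - 3) ^ 2 + A ^ 2)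
    have e2 : s ^ 2 * (A + 2) ^ 2 = (s * A + 2 * s) ^ 2 := by ring
    have e3 : 0 ≤ l ^ 2 * ((4 * A + 3) ^ 2 + (A - 3) ^ 2 + A ^ 2) := by positivity
    rw [e2, hsA]
    nlinarith [mul_pos hβ hs]
  obtain ⟨T₂, hT2, hT2e⟩ := intermediate_value_Icc hab hF.continuousOn ⟨hFa, hFb⟩
  refine ⟨T₁, T₂, hβ, hs, h1, h2, hT1, hT2e, hge1, hle1, ?_, ?_⟩
  · have := hT2.1
    rw [div_le_iff₀ (by positivity)] at this
    linarith
  · have := hT2.2
    rw [le_div_iff₀ hs] at this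
    linarith

end Pool.Agent.Q181.SV
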