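import Mathlib

/-!
# Project SV: shadows of Vietoris-Rips complexes of samples of a closed curve (MP_937632_gt)

There is a smooth simple closed curve `M` in `ℝ^N`, `N ≥ 4`, such that for all small `β` and all
`δ > 0` some finite `S` with `d_H(S, M) < δ` has a Vietoris-Rips shadow at scale `β` which is not
homotopy equivalent to a circle.  The curve contains a straight segment; near the segment `S`
consists of eight points, and the shadow encloses a 4-simplex without covering its centre.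
-/

set_option autoImplicit false

namespace Pool.Agent.Q181.SV

open Set Metric

/-- Euclidean space -/
abbrev E (N : ℕ) : Type := EuclideanSpace ℝ (Fin N)

/-- the shadow of the Vietoris-Rips complex of `S` at scale `β`: the union of the convex hulls of
the finite subsets of `S` of diameter less than `β` -/
def shadow {N : ℕ} (β : ℝ) (S : Set (E N)) : Set (E N) :=
  {x | ∃ σ : Finset (E N), σ.Nonempty ∧ (σ : Set (E N)) ⊆ S ∧ Metric.diam (σ : Set (E N)) < β ∧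
    x ∈ convexHull ℝ (σ : Set (E N))}

/-- a smooth simple closed curve, parametrised by `ℝ/ℤ` -/
def IsClosedCurve {N : ℕ} (M : Set (E N)) : Prop :=
  ∃ γ : ℝ → E N, ContDiff ℝ (⊤ : ℕ∞) γ ∧ (∀ t, γ (t + 1) = γ t) ∧ (∀ t, deriv γ t ≠ 0) ∧
    (∀ s t, γ s = γ t → ∃ k : ℤ, s = t + k) ∧ M = range γ

/-- the point with normalised coordinates `(x, y, z, h)` in the frame `f` at `m`; `s` is the unit
in the direction `f 0`, and `l` the unit in the other three directions -/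
noncomputable def L (m : E 4) (f : Fin 4 → E 4) (s l x y z h : ℝ) : E 4 :=
  m + ((s * x) • f 0 + (l * y) • f 1 + (l * z) • f 2 + (l * h) • f 3)

/-- the parameters: `T₁` and `T₂` are chosen such that four of the distances of the
configuration are exactly `sqrt (β² - 2 l²)`, with `l = s²/β` -/
def Par (β s l T₁ T₂ : ℝ) : Prop :=
  0 < β ∧ 0 < s ∧ 100 * s ≤ β ∧ l * β = s ^ 2 ∧
  T₁ ^ 2 * (9 * s ^ 2 + 50 * l ^ 2) = β ^ 2 - 2 * l ^ 2 ∧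
  s ^ 2 * (T₂ + 2) ^ 2 + l ^ 2 * ((4 * T₂ + 3) ^ 2 + (T₂ - 3) ^ 2 + T₂ ^ 2) = β ^ 2 - 2 * l ^ 2 ∧
  9 * β ≤ 10 * (3 * s * T₁) ∧ 3 * s * T₁ ≤ β ∧ 9 * β ≤ 10 * (s * T₂) ∧ s * T₂ ≤ β

/-- the eight special points -/
noncomputable def Sp (m : E 4) (f : Fin 4 → E 4) (s l T₁ T₂ : ℝ) : Set (E 4) :=
  {L m f s l 0 (-1) 0 0, L m f s l 0 1 0 0, L m f s l 6 8 7 0, L m f s l 6 8 9 0,
    L m f s l (6 - 3 * T₁) (8 - 7 * T₁) 7 T₁, L m f s l (4 - T₂) (5 - 4 * T₂) (6 + T₂) T₂,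
    L m f s l (2 + T₂) (2 - T₂) (3 + 4 * T₂) T₂, L m f s l (3 * T₁) 1 (7 * T₁) T₁}

/-- the centre of the void -/
noncomputable def cen (m : E 4) (f : Fin 4 → E 4) (s l : ℝ) : E 4 :=
  L m f s l 3 (17 / 5) (23 / 5) (1 / 5)

/-- JOB PARAM: existence of the parameters -/
def S_param : Prop := ∀ β s l : ℝ, 0 < β → 0 < s → 100 * s ≤ β → l * β = s ^ 2 →
  ∃ T₁ T₂ : ℝ, Par β s l T₁ T₂

/-- JOB FRAME: a frame in which the direction `e` of the segment is slightly tilted -/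
def S_frame : Prop := ∀ (e n : E 4), ‖e‖ = 1 → ‖n‖ = 1 → inner ℝ e n = 0 → ∀ κ : ℝ,
  ∃ f : Fin 4 → E 4, Orthonormal ℝ f ∧ f 3 = n ∧
    Real.sqrt (9 + 32 * κ ^ 2) • e = (3 : ℝ) • f 0 + (4 * κ) • f 1 + (4 * κ) • f 2

/-- JOB ADJ1: the short distances -/
def S_adj1 : Prop := ∀ (m : E 4) (f : Fin 4 → E 4) (β s l T₁ T₂ : ℝ), Orthonormal ℝ f →
  Par β s l T₁ T₂ →
  let v₁ := L m f s l 0 (-1) 0 0
  let v₂ := L m f s l 0 1 0 0
  let u₁ := L m f s l 6 8 7 0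
  let u₂ := L m f s l 6 8 9 0
  let z₁ := L m f s l (6 - 3 * T₁) (8 - 7 * T₁) 7 T₁
  let z₂ := L m f s l (4 - T₂) (5 - 4 * T₂) (6 + T₂) T₂
  let w₁ := L m f s l (2 + T₂) (2 - T₂) (3 + 4 * T₂) T₂
  let w₂ := L m f s l (3 * T₁) 1 (7 * T₁) T₁
  (dist v₁ v₂ < β ∧ dist v₁ u₁ < β ∧ dist v₁ u₂ < β ∧ dist v₂ u₁ < β ∧ dist v₂ u₂ < β ∧
    dist u₁ u₂ < β) ∧
  (dist z₁ v₁ < β ∧ dist z₁ v₂ < β ∧ dist z₁ u₁ < β) ∧
  (dist z₂ v₁ < β ∧ dist z₂ v₂ < β ∧ dist z₂ u₂ < β) ∧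
  (dist w₁ u₁ < β ∧ dist w₁ u₂ < β ∧ dist w₁ v₁ < β) ∧
  (dist w₂ u₁ < β ∧ dist w₂ u₂ < β ∧ dist w₂ v₂ < β)

/-- JOB ADJ2: the long distances -/
def S_adj2 : Prop := ∀ (m : E 4) (f : Fin 4 → E 4) (β s l T₁ T₂ : ℝ), Orthonormal ℝ f →
  Par β s l T₁ T₂ →
  let v₁ := L m f s l 0 (-1) 0 0
  let v₂ := L m f s l 0 1 0 0
  let u₁ := L m f s l 6 8 7 0
  let u₂ := L m f s l 6 8 9 0
  let z₁ := L m f s l (6 - 3 * T₁) (8 - 7 * T₁) 7 T₁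
  let z₂ := L m f s l (4 - T₂) (5 - 4 * T₂) (6 + T₂) T₂
  let w₁ := L m f s l (2 + T₂) (2 - T₂) (3 + 4 * T₂) T₂
  let w₂ := L m f s l (3 * T₁) 1 (7 * T₁) T₁
  (β ≤ dist z₁ u₂ ∧ β ≤ dist z₂ u₁ ∧ β ≤ dist w₁ v₂ ∧ β ≤ dist w₂ v₁) ∧
  (β ≤ dist z₁ w₁ ∧ β ≤ dist z₁ w₂ ∧ β ≤ dist z₂ w₁ ∧ β ≤ dist z₂ w₂)

/-- JOB ADJ3: the distances from the far special points to the points of the curve -/
def S_adj3 : Prop := ∀ (m : E 4) (f : Fin 4 → E 4) (β s l T₁ T₂ : ℝ), Orthonormal ℝ f →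
  Par β s l T₁ T₂ →
  let z₁ := L m f s l (6 - 3 * T₁) (8 - 7 * T₁) 7 T₁
  let z₂ := L m f s l (4 - T₂) (5 - 4 * T₂) (6 + T₂) T₂
  let w₁ := L m f s l (2 + T₂) (2 - T₂) (3 + 4 * T₂) T₂
  let w₂ := L m f s l (3 * T₁) 1 (7 * T₁) T₁
  (∀ u : ℝ, 4 ≤ u → β ≤ dist z₁ (L m f s l (3 * u) (4 * u) (4 * u) 0) ∧
    β ≤ dist z₂ (L m f s l (3 * u) (4 * u) (4 * u) 0)) ∧
  (∀ u : ℝ, u ≤ -4 → β ≤ dist w₁ (L m f s l (3 * u) (4 * u) (4 * u) 0) ∧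
    β ≤ dist w₂ (L m f s l (3 * u) (4 * u) (4 * u) 0)) ∧
  (dist z₁ m < 2 * β ∧ dist z₂ m < 2 * β ∧ dist w₁ m < 2 * β ∧ dist w₂ m < 2 * β)

/-- JOB AVOID: the centre is not in the shadow -/
def S_avoid : Prop := ∀ (m : E 4) (f : Fin 4 → E 4) (β s l T₁ T₂ : ℝ), Orthonormal ℝ f →
  Par β s l T₁ T₂ → ∀ F : Set (E 4), (∀ p ∈ F, inner ℝ (f 3) (p - m) = 0) →
  (∀ p ∈ F, dist p m < 3 * β → ∃ u : ℝ, (u ≤ -4 ∨ 4 ≤ u) ∧
    p = L m f s l (3 * u) (4 * u) (4 * u) 0) →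
  cen m f s l ∉ shadow β (F ∪ Sp m f s l T₁ T₂)

/-- JOB FACET: the shadow contains the boundary of a 4-simplex around the centre -/
def S_facet : Prop := ∀ (m : E 4) (f : Fin 4 → E 4) (β s l T₁ T₂ : ℝ), Orthonormal ℝ f →
  Par β s l T₁ T₂ → ∀ F : Set (E 4), ∃ C : Set (E 4), Convex ℝ C ∧ IsCompact C ∧
    cen m f s l ∈ interior C ∧ frontier C ⊆ shadow β (F ∪ Sp m f s l T₁ T₂)

/-- JOB NEAR: the special points are near the line -/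
def S_near : Prop := ∀ (m e : E 4) (f : Fin 4 → E 4) (β s l T₁ T₂ : ℝ), Orthonormal ℝ f →
  Par β s l T₁ T₂ →
  Real.sqrt (9 + 32 * (s / β) ^ 2) • e = (3 : ℝ) • f 0 + (4 * (s / β)) • f 1 +
    (4 * (s / β)) • f 2 →
  ∀ p ∈ Sp m f s l T₁ T₂, ∃ t : ℝ, |t| < 3 * β ∧ dist p (m + t • e) ≤ 20 * s

/-- JOB NET: finite nets of a compact set which avoid a piece of a segment -/
def S_net : Prop := ∀ (M : Set (E 4)), IsCompact M → ∀ (m e : E 4) (R g η : ℝ), ‖e‖ = 1 →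
  0 < g → 2 * g < R → 0 < η → (∀ t : ℝ, |t| < R → m + t • e ∈ M) →
  ∃ F : Set (E 4), F.Finite ∧ F ⊆ M ∧ F.Nonempty ∧ (∀ t : ℝ, |t| < g → m + t • e ∉ F) ∧
    ∀ x ∈ M, ∃ p ∈ F, dist x p < 2 * g + η

/-- JOB TOP: a set which contains the boundary of a convex body of `ℝ⁴` but misses an interior
point is not homotopy equivalent to a circle -/
def S_top : Prop := ∀ (K C : Set (E 4)) (o : E 4), o ∉ K → Convex ℝ C → IsCompact C →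
  o ∈ interior C → frontier C ⊆ K → ¬ Nonempty (ContinuousMap.HomotopyEquiv K Circle)

/-- JOB CURVE: a smooth simple closed curve which contains a straight segment -/
def S_curve : Prop := ∃ M : Set (E 4), IsClosedCurve M ∧ ∃ (m e n : E 4) (R : ℝ), ‖e‖ = 1 ∧
  ‖n‖ = 1 ∧ inner ℝ e n = 0 ∧ 0 < R ∧ (∀ p ∈ M, inner ℝ n (p - m) = 0) ∧
  (∀ p ∈ M, dist p m < R → ∃ t : ℝ, p = m + t • e) ∧ (∀ t : ℝ, |t| < R → m + t • e ∈ M)

/-- JOB TRANS: transfer to higher dimension -/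
def S_trans : Prop := ∀ N : ℕ, 4 ≤ N → ∃ φ : E 4 → E N, Isometry φ ∧
  (∀ M : Set (E 4), IsClosedCurve M → IsClosedCurve (φ '' M)) ∧
  ∀ (β : ℝ) (S : Set (E 4)), Nonempty (shadow β (φ '' S) ≃ₜ shadow β S)

end Pool.Agent.Q181.SV
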