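import Pool.Agent.Q181.SV.Stm
import Pool.Agent.Helper31.GZ.Brouwer
import Pool.Agent.H472R3.Fib
import Pool.Agent.Helper206.BoxS.SphereSC

set_option autoImplicit false

namespace Pool.Agent.Q181.SV

open Set Metric
open scoped Topology

/-- the unit sphere of `ℝ⁴` -/
abbrev S3 : Type := sphere (0 : E 4) 1

/-- copied from `Pool.Agent.Helper31.GZ.sphere_not_nullhomotopic` -/
theorem sphere_not_null : ¬ (ContinuousMap.id S3).Nullhomotopic := by
  rintro ⟨c, ⟨F⟩⟩
  set t : E 4 → unitInterval := fun x => projIcc 0 1 zero_le_one (2 - 2 * ‖x‖) with ht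
  have htc : Continuous t := continuous_projIcc.comp (by fun_prop)
  have hn : ∀ x : E 4, x ≠ 0 → ‖x‖⁻¹ • x ∈ sphere (0 : E 4) 1 := by
    intro x hx
    rw [mem_sphere_zero_iff_norm, norm_smul, norm_inv, norm_norm,
      inv_mul_cancel₀ (norm_ne_zero_iff.2 hx)]
  set f : E 4 → E 4 := fun x => if h : x ≠ 0 then
    (max ‖x‖ 1) • ((F (t x, ⟨‖x‖⁻¹ • x, hn x h⟩) : S3) : E 4) else (c : E 4) with hf
  have hf0 : ∀ x : E 4, ‖x‖ < 1 / 2 → f x = c := by
    intro x hx
    by_cases h : x ≠ 0
    · have h1 : t x = 1 := by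
        simp only [ht]
        rw [projIcc_of_right_le _ (by linarith)]
        rfl
      simp only [hf, dif_pos h, h1]
      have h2 : F (1, (⟨‖x‖⁻¹ • x, hn x h⟩ : S3)) = c := by
        rw [F.apply_one]; rfl
      rw [h2, max_eq_right (by linarith), one_smul]
    · simp only [hf, dif_neg h]
  have hfc : Continuous f := by
    rw [continuous_iff_continuousAt]
    intro x
    by_cases hx : x = 0
    · subst hx
      refine (continuousAt_const : ContinuousAt (fun _ : E 4 => (c : E 4)) 0).congr ?_
      filter_upwards [ball_mem_nhds (0 : E 4) (by norm_num : (0 : ℝ) < 1 / 2)] with y hy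
      exact (hf0 y (by simpa using hy)).symm
    · have hon : ContinuousOn f {y | y ≠ 0} := by
        rw [continuousOn_iff_continuous_domRestrict]
        have : ({y : E 4 | y ≠ 0}).domRestrict f = fun y : {y : E 4 | y ≠ 0} =>
            (max ‖(y : E 4)‖ 1) • ((F (t y, ⟨‖(y : E 4)‖⁻¹ • (y : E 4), hn y y.2⟩) : S3) : E 4) := by
          funext y
          exact dif_pos y.2
        rw [this]
        have hnc : Continuous fun y : {y : E 4 | y ≠ 0} =>
            (⟨‖(y : E 4)‖⁻¹ • (y : E 4), hn y y.2⟩ : S3) := by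
          refine Continuous.subtype_mk ?_ _
          exact (continuous_subtype_val.norm.inv₀ (fun y => norm_ne_zero_iff.2 y.2)).smul
            continuous_subtype_val
        exact ((continuous_subtype_val.norm).max continuous_const).smul
          (continuous_subtype_val.comp
            (F.continuous.comp ((htc.comp continuous_subtype_val).prodMk hnc)))
      exact (hon x hx).continuousAt (isOpen_ne.mem_nhds hx)
  obtain ⟨x, hx⟩ := Pool.Agent.Helper31.GZ.Brouwer.exists_zero 4 f hfc 1 one_pos (by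
    intro x hx
    have h : x ≠ 0 := by
      rintro rfl; norm_num at hx
    have h1 : t x = 0 := by
      simp only [ht]
      rw [projIcc_of_le_left _ (by linarith)]
      rfl
    simp only [hf, dif_pos h, h1]
    have h2 : F (0, (⟨‖x‖⁻¹ • x, hn x h⟩ : S3)) = (⟨‖x‖⁻¹ • x, hn x h⟩ : S3) := by
      rw [F.apply_zero]; rfl
    rw [h2, max_eq_left hx, smul_smul, mul_inv_cancel₀ (by linarith), one_smul])
  by_cases h : x ≠ 0
  · simp only [hf, dif_pos h] at hx
    have h1 : ‖((F (t x, (⟨‖x‖⁻¹ • x, hn x h⟩ : S3)) : S3) : E 4)‖ = 1 :=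
      mem_sphere_zero_iff_norm.1 (F (t x, (⟨‖x‖⁻¹ • x, hn x h⟩ : S3)) : S3).2
    have h2 := congrArg norm hx
    rw [norm_smul, h1, norm_zero, mul_one, norm_eq_zero] at h2
    have := le_max_right ‖x‖ 1
    rw [h2] at this
    linarith
  · simp only [hf, dif_neg h] at hx
    have h1 : ‖(c : E 4)‖ = 1 := mem_sphere_zero_iff_norm.1 c.2
    rw [hx, norm_zero] at h1
    norm_num at h1

/-- maps from `S³` to the circle are nullhomotopic -/
theorem null_circle (a : C(S3, Circle)) : a.Nullhomotopic := by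
  have hsc : SimplyConnectedSpace S3 :=
    Pool.Agent.Helper206.BoxS.Sph.simplyConnected_sphere (by simp)
  have hfact : Fact (Module.finrank ℝ (E 4) = 3 + 1) := ⟨by simp⟩
  have hlp : LocallyPathConnectedSpace S3 :=
    ChartedSpace.locallyPathConnectedSpace (EuclideanSpace ℝ (Fin 3)) _
  obtain ⟨θ, hθ⟩ := Pool.Agent.H472R3.lift_circle a
  refine ⟨1, ⟨{ toFun := fun p => Circle.exp ((1 - (p.1 : ℝ)) * θ p.2),
                continuous_toFun := by fun_prop,
                map_zero_left := ?_, map_one_left := ?_ }⟩⟩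
  · intro x
    simp [hθ]
  · intro x
    simp

theorem t_top : S_top := by
  intro K C o hoK hC hCc hoC hfr
  rintro ⟨⟨a, b, hab, hba⟩⟩
  -- the translated body
  set C₀ : Set (E 4) := (fun x => x - o) '' C with hC₀
  have hC₀' : C₀ = (Homeomorph.subRight o) '' C := rfl
  have hconv : Convex ℝ C₀ := by
    have h : C₀ = (fun x => -o + x) '' C := by
      rw [hC₀]
      refine image_congr fun x _ => ?_
      rw [sub_eq_add_neg, add_comm]
    rw [h]
    exact hC.translate (-o)
  have hnhds : C₀ ∈ 𝓝 (0 : E 4) := by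
    rw [_root_.mem_nhds_iff]
    refine ⟨(Homeomorph.subRight o) '' interior C, ?_, ?_, ?_⟩
    · rw [hC₀']
      exact image_mono interior_subset
    · exact (Homeomorph.subRight o).isOpenMap _ isOpen_interior
    · exact ⟨o, hoC, by simp⟩
  have hbd : Bornology.IsBounded C₀ := by
    rw [hC₀']
    exact (hCc.image (Homeomorph.subRight o).continuous).isBounded
  have hgc : Continuous (gauge C₀) := continuous_gauge hconv hnhds
  have hgp : ∀ v : E 4, v ≠ 0 → 0 < gauge C₀ v := by
    intro v hv
    refine (gauge_pos (absorbent_nhds_zero hnhds) ?_).2 hv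
    exact NormedSpace.isVonNBounded_of_isBounded ℝ hbd
  have hfr' : ∀ v : E 4, gauge C₀ v = 1 → o + v ∈ frontier C := by
    intro v hv
    have h1 := (gauge_eq_one_iff_mem_frontier hconv hnhds).1 hv
    rw [hC₀', ← (Homeomorph.subRight o).image_frontier] at h1
    obtain ⟨x, hx, hxv⟩ := h1
    have : o + v = x := by
      rw [← hxv]
      simp
    rwa [this]
  have hv0 : ∀ v : S3, (v : E 4) ≠ 0 := by
    intro v hv
    have := mem_sphere_zero_iff_norm.1 v.2
    rw [hv, norm_zero] at this
    norm_num at this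
  -- the section
  let mm : C(S3, K) :=
    ⟨fun v => ⟨o + (gauge C₀ (v : E 4))⁻¹ • (v : E 4), by
      apply hfr
      apply hfr'
      rw [gauge_smul_of_nonneg (inv_nonneg.2 (gauge_nonneg _)), smul_eq_mul,
        inv_mul_cancel₀ (hgp _ (hv0 v)).ne']⟩, by
      refine Continuous.subtype_mk ?_ _
      refine continuous_const.add (Continuous.smul (Continuous.inv₀
        (hgc.comp continuous_subtype_val) fun v => (hgp _ (hv0 v)).ne') continuous_subtype_val)⟩
  have hKo : ∀ x : K, (x : E 4) - o ≠ 0 := by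
    intro x hx
    apply hoK
    rw [← sub_eq_zero.1 hx]
    exact x.2
  let nn : C(K, S3) :=
    ⟨fun x => ⟨‖(x : E 4) - o‖⁻¹ • ((x : E 4) - o), by
      rw [mem_sphere_zero_iff_norm, norm_smul, norm_inv, norm_norm,
        inv_mul_cancel₀ (norm_ne_zero_iff.2 (hKo x))]⟩, by
      refine Continuous.subtype_mk ?_ _
      refine Continuous.smul (Continuous.inv₀ (by fun_prop) fun x =>
        norm_ne_zero_iff.2 (hKo x)) (by fun_prop)⟩
  have hnm : nn.comp mm = ContinuousMap.id S3 := by
    ext1 v
    apply Subtype.ext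
    change ‖(o + (gauge C₀ (v : E 4))⁻¹ • (v : E 4)) - o‖⁻¹ •
      ((o + (gauge C₀ (v : E 4))⁻¹ • (v : E 4)) - o) = (v : E 4)
    rw [add_sub_cancel_left, norm_smul, mem_sphere_zero_iff_norm.1 v.2, mul_one, norm_inv,
      Real.norm_of_nonneg (gauge_nonneg _), inv_inv, smul_smul,
      mul_inv_cancel₀ (hgp _ (hv0 v)).ne', one_smul]
  -- the homotopy
  apply sphere_not_null
  have h1 : (a.comp mm).Nullhomotopic := null_circle _
  have h2 : ((nn.comp b).comp (a.comp mm)).Nullhomotopic := by
    obtain ⟨c, hc⟩ := h1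
    refine ⟨(nn.comp b) c, ?_⟩
    have := (ContinuousMap.Homotopic.refl (nn.comp b)).comp hc
    exact this
  have h3 : ((nn.comp b).comp (a.comp mm)).Homotopic (ContinuousMap.id S3) := by
    have h4 : ((nn.comp (b.comp a)).comp mm).Homotopic
        ((nn.comp (ContinuousMap.id K)).comp mm) :=
      (((ContinuousMap.Homotopic.refl nn).comp hab).comp (ContinuousMap.Homotopic.refl mm))
    have h5 : (nn.comp (ContinuousMap.id K)).comp mm = ContinuousMap.id S3 := by
      rw [ContinuousMap.comp_id, hnm]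
    rw [h5] at h4
    exact h4
  obtain ⟨c, hc⟩ := h2
  exact ⟨c, h3.symm.trans hc⟩

end Pool.Agent.Q181.SV
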