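import Pool.Agent.Q181.SV.Stm

set_option autoImplicit false

namespace Pool.Agent.Q181.SV

open Set Metric

/-- extension by zero -/
noncomputable def ext0 (N : ℕ) : E 4 →ₗ[ℝ] E N where
  toFun x := WithLp.toLp 2 fun i => if h : i.val < 4 then x ⟨i.val, h⟩ else 0
  map_add' x y := by
    ext i
    by_cases h : i.val < 4 <;> simp [h]
  map_smul' c x := by
    ext i
    by_cases h : i.val < 4 <;> simp [h]

theorem ext0_apply (N : ℕ) (x : E 4) (i : Fin N) :
    ext0 N x i = if h : i.val < 4 then x ⟨i.val, h⟩ else 0 := rfl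

theorem norm_ext0 (N : ℕ) (hN : 4 ≤ N) (x : E 4) : ‖ext0 N x‖ = ‖x‖ := by
  rw [EuclideanSpace.norm_eq, EuclideanSpace.norm_eq]
  congr 1
  symm
  refine Finset.sum_of_injOn (Fin.castLE hN) ?_ ?_ ?_ ?_
  · intro a _ b _ h
    exact Fin.castLE_injective hN h
  · intro a _
    simp
  · intro i _ hi
    rw [ext0_apply]
    by_cases h : i.val < 4
    · exfalso
      apply hi
      exact ⟨⟨i.val, h⟩, by simp, by ext; simp⟩
    · rw [dif_neg h]; simp
  · intro i _
    rw [ext0_apply]
    have h : (Fin.castLE hN i).val < 4 := i.2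
    rw [dif_pos h]
    rfl

/-- the isometric embedding -/
noncomputable def φ (N : ℕ) (hN : 4 ≤ N) : E 4 →ₗᵢ[ℝ] E N := ⟨ext0 N, norm_ext0 N hN⟩

theorem shadow_image (N : ℕ) (hN : 4 ≤ N) (β : ℝ) (S : Set (E 4)) :
    shadow β (φ N hN '' S) = φ N hN '' shadow β S := by
  classical
  ext x
  constructor
  · rintro ⟨σ, hne, hσ, hd, hx⟩
    obtain ⟨τ, hτ, rfl⟩ := Finset.subset_set_image_iff.1 hσ
    rw [Finset.coe_image] at hd hx
    rw [(φ N hN).isometry.diam_image] at hd
    have h1 : (φ N hN '' (τ : Set (E 4))) = ((φ N hN).toLinearMap : E 4 →ₗ[ℝ] E N) '' (τ : Set (E 4)) := rfl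
    rw [h1, ← LinearMap.image_convexHull] at hx
    obtain ⟨y, hy, rfl⟩ := hx
    exact ⟨y, ⟨τ, Finset.image_nonempty.1 hne, hτ, hd, hy⟩, rfl⟩
  · rintro ⟨y, ⟨τ, hne, hτ, hd, hy⟩, rfl⟩
    refine ⟨τ.image (φ N hN), hne.image _, ?_, ?_, ?_⟩
    · rw [Finset.coe_image]
      exact image_mono hτ
    · rw [Finset.coe_image, (φ N hN).isometry.diam_image]
      exact hd
    · rw [Finset.coe_image]
      have h1 : (φ N hN '' (τ : Set (E 4))) = ((φ N hN).toLinearMap : E 4 →ₗ[ℝ] E N) '' (τ : Set (E 4)) := rfl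
      rw [h1, ← LinearMap.image_convexHull]
      exact ⟨y, hy, rfl⟩

theorem t_trans : S_trans := by
  intro N hN
  refine ⟨φ N hN, (φ N hN).isometry, ?_, ?_⟩
  · rintro M ⟨γ, h1, h2, h3, h4, rfl⟩
    have hd : ∀ t, deriv (fun t => φ N hN (γ t)) t = φ N hN (deriv γ t) := by
      intro t
      have h5 : HasDerivAt γ (deriv γ t) t :=
        (h1.differentiable (by simp)).differentiableAt.hasDerivAt
      exact ((φ N hN).toContinuousLinearMap.hasFDerivAt.comp_hasDerivAt t h5).deriv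
    refine ⟨fun t => φ N hN (γ t), ?_, ?_, ?_, ?_, ?_⟩
    · exact (φ N hN).toContinuousLinearMap.contDiff.comp h1
    · intro t
      exact congrArg _ (h2 t)
    · intro t h
      rw [hd] at h
      apply h3 t
      apply (φ N hN).injective
      rw [h, map_zero]
    · intro s t h
      exact h4 s t ((φ N hN).injective h)
    · rw [← range_comp]
      rfl
  · intro β S
    rw [shadow_image]
    exact ⟨((φ N hN).isometry.isEmbedding.homeomorphImage (shadow β S)).symm⟩

end Pool.Agent.Q181.SV
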